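import Pool.Agent.H247R2.PNG.Defs

/-!
# Basic facts on the spaces `Rk K k`
-/

namespace Pool.Agent.H247R2.PNG

open Finset Module

variable {K : Type} [Field K]

instance (k : ℕ) : FiniteDimensional K (Rk K k) :=
  FiniteDimensional.span_of_finite K (Set.finite_range _)

theorem finrank_Rk_le (k : ℕ) : finrank K (Rk K k) ≤ (k + 1) ^ 4 := by
  have h : finrank K (Rk K k) ≤ Fintype.card (Fin 4 → Fin (k + 1)) :=
    finrank_range_le_card (R := K) (fun e : Fin 4 → Fin (k + 1) =>
      fun x : Fin 4 → K => ∏ j, x j ^ (e j : ℕ))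
  rwa [Fintype.card_fun, Fintype.card_fin, Fintype.card_fin] at h

theorem mon_mem_Rk {k : ℕ} (e : Fin 4 → ℕ) (he : ∀ j, e j ≤ k) :
    (fun x : Fin 4 → K => ∏ j, x j ^ e j) ∈ Rk K k :=
  Submodule.subset_span ⟨fun j => ⟨e j, Nat.lt_succ_of_le (he j)⟩, rfl⟩

theorem Rk_mono {k l : ℕ} (h : k ≤ l) : Rk K k ≤ Rk K l := by
  unfold Rk
  rw [Submodule.span_le]
  rintro _ ⟨e, rfl⟩
  exact mon_mem_Rk (fun j => (e j : ℕ)) fun j => (Nat.le_of_lt_succ (e j).2).trans h

theorem prod_mem_Rk {k : ℕ} (g : Fin 4 → Polynomial K) (hg : ∀ j, (g j).natDegree ≤ k) :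
    (fun x : Fin 4 → K => ∏ j, (g j).eval (x j)) ∈ Rk K k := by
  have h : (fun x : Fin 4 → K => ∏ j, (g j).eval (x j)) =
      ∑ e : Fin 4 → Fin (k + 1), (∏ j, (g j).coeff (e j : ℕ)) •
        fun x : Fin 4 → K => ∏ j, x j ^ (e j : ℕ) := by
    funext x
    have h1 : ∀ j, (g j).eval (x j) = ∑ i : Fin (k + 1), (g j).coeff (i : ℕ) * x j ^ (i : ℕ) := by
      intro j
      rw [Polynomial.eval_eq_sum_range' (Nat.lt_succ_of_le (hg j)),
        ← Fin.sum_univ_eq_sum_range (fun i => (g j).coeff i * x j ^ i)]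
    rw [Finset.prod_congr rfl fun j _ => h1 j, Finset.prod_univ_sum]
    simp only [Fintype.piFinset_univ, Finset.sum_apply, Pi.smul_apply, smul_eq_mul,
      Finset.prod_mul_distrib]
  rw [h]
  exact Submodule.sum_mem _ fun e _ => Submodule.smul_mem _ _
    (mon_mem_Rk (fun j => (e j : ℕ)) fun j => Nat.le_of_lt_succ (e j).2)

theorem mul_mem_Rk {k l : ℕ} {f g : (Fin 4 → K) → K} (hf : f ∈ Rk K k) (hg : g ∈ Rk K l) :
    f * g ∈ Rk K (k + l) := by
  induction hf using Submodule.span_induction with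
  | mem f hf =>
    obtain ⟨e, rfl⟩ := hf
    induction hg using Submodule.span_induction with
    | mem g hg =>
      obtain ⟨e', rfl⟩ := hg
      have := mon_mem_Rk (K := K) (k := k + l) (fun j => (e j : ℕ) + (e' j : ℕ)) fun j =>
        Nat.add_le_add (Nat.le_of_lt_succ (e j).2) (Nat.le_of_lt_succ (e' j).2)
      have h2 : ((fun x : Fin 4 → K => ∏ j, x j ^ (e j : ℕ)) * fun x : Fin 4 → K =>
          ∏ j, x j ^ (e' j : ℕ)) = fun x : Fin 4 → K => ∏ j, x j ^ ((e j : ℕ) + (e' j : ℕ)) := by
        funext x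
        simp only [Pi.mul_apply, pow_add, Finset.prod_mul_distrib]
      rw [h2]
      exact this
    | zero => rw [mul_zero]; exact Submodule.zero_mem _
    | add x y _ _ hx hy => rw [mul_add]; exact Submodule.add_mem _ hx hy
    | smul a x _ hx => rw [mul_smul_comm]; exact Submodule.smul_mem _ _ hx
  | zero => rw [zero_mul]; exact Submodule.zero_mem _
  | add x y _ _ hx hy => rw [add_mul]; exact Submodule.add_mem _ hx hy
  | smul a x _ hx => rw [smul_mul_assoc]; exact Submodule.smul_mem _ _ hx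

theorem const_mem_Rk (k : ℕ) (a : K) : (fun _ : Fin 4 → K => a) ∈ Rk K k := by
  have h : (fun _ : Fin 4 → K => a) = a • fun x : Fin 4 → K => ∏ j, x j ^ (fun _ => 0 : Fin 4 → ℕ) j := by
    funext x
    simp
  rw [h]
  exact Submodule.smul_mem _ _ (mon_mem_Rk _ fun _ => Nat.zero_le _)

theorem PP_mem (c : Fin 4 → K) : PP c ∈ Rk K 1 := by
  have h := prod_mem_Rk (K := K) (k := 1) (fun j => Polynomial.X + Polynomial.C (c j)) fun j => by
    exact (Polynomial.natDegree_X_add_C (c j)).le
  have h2 : PP c = fun x : Fin 4 → K => ∏ j, (Polynomial.X + Polynomial.C (c j)).eval (x j) := by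
    funext x
    simp [PP]
  rw [h2]
  exact h

/-- linear maps that vanish on the product functions vanish on `Rk K k` -/
theorem eq_zero_of_prod {V : Type*} [AddCommGroup V] [Module K V] {k : ℕ}
    (T : ((Fin 4 → K) → K) →ₗ[K] V)
    (hT : ∀ g : Fin 4 → Polynomial K, (∀ j, (g j).natDegree ≤ k) →
      T (fun x : Fin 4 → K => ∏ j, (g j).eval (x j)) = 0) {f : (Fin 4 → K) → K}
    (hf : f ∈ Rk K k) : T f = 0 := by
  have h : Rk K k ≤ LinearMap.ker T := by
    unfold Rk
    rw [Submodule.span_le]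
    rintro _ ⟨e, rfl⟩
    rw [SetLike.mem_coe, LinearMap.mem_ker]
    have h2 := hT (fun j => Polynomial.X ^ (e j : ℕ)) fun j => by
      rw [Polynomial.natDegree_X_pow]
      exact Nat.le_of_lt_succ (e j).2
    simpa using h2
  exact h hf

theorem affine_line {f : (Fin 4 → K) → K} (hf : f ∈ Rk K 1) (x : Fin 4 → K) (j : Fin 4) :
    ∃ A B : K, ∀ t, f (Function.update x j t) = A + B * t := by
  induction hf using Submodule.span_induction with
  | mem f hf =>
    obtain ⟨e, rfl⟩ := hf
    have h : ∀ t, ∏ i, (Function.update x j t) i ^ (e i : ℕ) =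
        (∏ i ∈ univ.erase j, x i ^ (e i : ℕ)) * t ^ (e j : ℕ) := by
      intro t
      rw [← Finset.mul_prod_erase univ _ (Finset.mem_univ j), Function.update_self, mul_comm]
      congr 1
      refine Finset.prod_congr rfl fun i hi => ?_
      rw [Function.update_of_ne (Finset.ne_of_mem_erase hi)]
    rcases Nat.le_one_iff_eq_zero_or_eq_one.mp (Nat.le_of_lt_succ (e j).2) with h0 | h1
    · refine ⟨∏ i ∈ univ.erase j, x i ^ (e i : ℕ), 0, fun t => ?_⟩
      refine (h t).trans ?_
      rw [h0]
      ring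
    · refine ⟨0, ∏ i ∈ univ.erase j, x i ^ (e i : ℕ), fun t => ?_⟩
      refine (h t).trans ?_
      rw [h1]
      ring
  | zero => exact ⟨0, 0, fun t => by simp⟩
  | add g h _ _ hg hh =>
    obtain ⟨A, B, h1⟩ := hg
    obtain ⟨A', B', h2⟩ := hh
    refine ⟨A + A', B + B', fun t => ?_⟩
    rw [Pi.add_apply, h1, h2]
    ring
  | smul a g _ hg =>
    obtain ⟨A, B, h1⟩ := hg
    refine ⟨a * A, a * B, fun t => ?_⟩
    rw [Pi.smul_apply, h1, smul_eq_mul]
    ring

theorem finrank_R1 : finrank K (Rk K 1) = 16 := by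
  refine le_antisymm ((finrank_Rk_le 1).trans (by norm_num)) ?_
  -- restriction to the cube is onto
  let ρ : ((Fin 4 → K) → K) →ₗ[K] ((Fin 4 → Fin 2) → K) :=
    LinearMap.pi fun s => LinearMap.proj (fun j => ((s j : ℕ) : K))
  have hρ : ∀ f s, ρ f s = f (fun j => ((s j : ℕ) : K)) := fun f s => rfl
  have htop : (Rk K 1).map ρ = ⊤ := by
    rw [eq_top_iff]
    intro F _
    -- the indicator functions are in the image
    have hind : ∀ s : Fin 4 → Fin 2, (Pi.single s (1 : K) : (Fin 4 → Fin 2) → K) ∈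
        (Rk K 1).map ρ := by
      intro s
      refine ⟨fun x => ∏ j, (if s j = 0 then Polynomial.C (1 : K) - Polynomial.X
        else Polynomial.X : Polynomial K).eval (x j), prod_mem_Rk _ fun j => ?_, ?_⟩
      · split_ifs
        · exact (Polynomial.natDegree_sub_le _ _).trans (by
            rw [Polynomial.natDegree_C]
            simp [Polynomial.natDegree_X])
        · exact Polynomial.natDegree_X_le
      · funext r
        rw [hρ]
        by_cases hrs : r = s
        · subst hrs
          rw [Pi.single_eq_same]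
          refine Finset.prod_eq_one fun j _ => ?_
          rcases Fin.exists_fin_two.mp ⟨r j, rfl⟩ with h | h
          · simp [h]
          · simp [h]
        · rw [Pi.single_eq_of_ne hrs]
          obtain ⟨j, hj⟩ := Function.ne_iff.mp hrs
          refine Finset.prod_eq_zero (Finset.mem_univ j) ?_
          rcases Fin.exists_fin_two.mp ⟨s j, rfl⟩ with h | h
          · rcases Fin.exists_fin_two.mp ⟨r j, rfl⟩ with h' | h'
            · exact absurd (h'.trans h.symm) hj
            · simp [h, h']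
          · rcases Fin.exists_fin_two.mp ⟨r j, rfl⟩ with h' | h'
            · simp [h, h']
            · exact absurd (h'.trans h.symm) hj
    have hF : F = ∑ s, F s • (Pi.single s (1 : K) : (Fin 4 → Fin 2) → K) := by
      funext r
      rw [Finset.sum_apply, Finset.sum_eq_single r]
      · simp
      · intro b _ hb
        rw [Pi.smul_apply, Pi.single_eq_of_ne (Ne.symm hb), smul_zero]
      · intro h
        exact absurd (Finset.mem_univ r) h
    rw [hF]
    exact Submodule.sum_mem _ fun s _ => Submodule.smul_mem _ _ (hind s)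
  have h1 : finrank K ((Rk K 1).map ρ) ≤ finrank K (Rk K 1) := Submodule.finrank_map_le _ _
  rw [htop, finrank_top, Module.finrank_fintype_fun_eq_card, Fintype.card_fun,
    Fintype.card_fin, Fintype.card_fin] at h1
  exact le_trans (by norm_num) h1

theorem res_apply (φ : K →+* K) (S : Finset K) (f : (Fin 4 → K) → K) (W : S) :
    res φ S f W = f (pt φ (W : K)) := rfl

end Pool.Agent.H247R2.PNG
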