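import Mathlib

/-!
# Functions on `K ^ 4` of bounded degree in every variable

`Rk K k` is the space of the functions on `K ^ 4` given by polynomials of degree at most `k` in
each of the four variables.
-/

namespace Pool.Agent.H247R2.PNG

open Finset

variable (K : Type) [Field K]

/-- the functions on `K ^ 4` given by polynomials of degree at most `k` in each variable -/
def Rk (k : ℕ) : Submodule K ((Fin 4 → K) → K) :=
  Submodule.span K (Set.range fun e : Fin 4 → Fin (k + 1) => fun x : Fin 4 → K =>
    ∏ j, x j ^ (e j : ℕ))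

variable {K}

/-- the product `∏ (x j + c j)` -/
def PP (c : Fin 4 → K) : (Fin 4 → K) → K := fun x => ∏ j, (x j + c j)

/-- the grid point with the coordinate `- c (τ j) j` in column `j` -/
def zz {n : ℕ} (c : Fin n → Fin 4 → K) (τ : Fin 4 → Fin n) : Fin 4 → K := fun j => -c (τ j) j

/-- the functions `PP (c i) * a` with `a` multilinear, for one `i` -/
noncomputable def mulP (c : Fin 4 → K) : Submodule K ((Fin 4 → K) → K) :=
  (Rk K 1).map (LinearMap.mulLeft K (PP c))

/-- the space spanned by the multilinear functions and their products with the `PP (c i)` -/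
noncomputable def YY {n : ℕ} (c : Fin n → Fin 4 → K) : Submodule K ((Fin 4 → K) → K) :=
  Rk K 1 ⊔ ⨆ i, mulP (c i)

/-- the point of `K ^ 4` with the coordinates `W, φ W, φ² W, φ³ W` -/
def pt (φ : K →+* K) (W : K) : Fin 4 → K := fun j => φ^[j] W

/-- restriction of functions on `K ^ 4` to the points `pt φ W`, `W ∈ S` -/
noncomputable def res (φ : K →+* K) (S : Finset K) : ((Fin 4 → K) → K) →ₗ[K] (S → K) :=
  LinearMap.pi fun W => LinearMap.proj (pt φ (W : K))

/-- the weights of Lagrange interpolation in column `j` at the nodes `- c l j` -/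
def ww (c : Fin 4 → Fin 4 → K) (i j : Fin 4) : K := ∏ l ∈ univ.erase i, (c l j - c i j)

/-- the residue functional: the signed sum of the values at the `24` permutation points of the
grid, divided by the weights -/
noncomputable def lam (c : Fin 4 → Fin 4 → K) : ((Fin 4 → K) → K) →ₗ[K] K :=
  ∑ σ : Equiv.Perm (Fin 4), ((Equiv.Perm.sign σ : ℤ) : K) •
    (∏ j, ww c (σ j) j)⁻¹ • LinearMap.proj (zz c σ)

variable (K) in
/-- the bound for the number of solutions of a system of five norm equations -/
def CardLe : Prop :=
  ∀ φ : K →+* K, (∀ x, φ (φ (φ (φ x))) = x) → ∀ C : Fin 5 → K, Function.Injective C →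
    ∀ d : Fin 5 → K, (∀ i, d i ≠ 0) → ∀ S : Finset K,
    (∀ W ∈ S, ∀ i, ∏ j : Fin 4, φ^[j] (W + C i) = d i) → S.card ≤ 18

end Pool.Agent.H247R2.PNG
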