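import Pool.Agent.H247R2.PNG.Defs

/-! Task A: the diagonal case (helper143). -/

namespace Pool.Agent.H247R2.PNG

open Finset Module

variable {K : Type} [Field K]

theorem card_le_diag (φ : K →+* K) (hφ : ∀ x, φ (φ (φ (φ x))) = x) (C : Fin 5 → K)
    (hC : Function.Injective C) (d : Fin 5 → K) (S : Finset K)
    (hS : ∀ W ∈ S, ∀ i, ∏ j : Fin 4, φ^[j] (W + C i) = d i)
    (h : ∀ i, (C 4 - C i) * φ (C 4 - C 0) = (C 4 - C 0) * φ (C 4 - C i)) : S.card ≤ 4 := by
  classical
  rcases S.eq_empty_or_nonempty with rfl | ⟨W0, hW0⟩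
  · simp
  have hM : C 4 - C 0 ≠ 0 := by
    rw [sub_ne_zero]
    intro h0
    have := hC h0
    exact absurd this (by decide)
  have hφM : φ (C 4 - C 0) ≠ 0 := by
    rw [Ne, map_eq_zero]
    exact hM
  set f : Fin 5 → K := fun i => (C 4 - C i) / (C 4 - C 0) with hf
  have hfφ : ∀ i, φ (f i) = f i := by
    intro i
    simp only [hf]
    rw [map_div₀, div_eq_div_iff hφM hM, mul_comm _ (C 4 - C 0), ← h i]
  have hfi : ∀ i n, φ^[n] (f i) = f i := fun i n => Function.iterate_fixed (hfφ i) n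
  have hfinj : Function.Injective f := by
    intro a b hab
    simp only [hf] at hab
    rw [div_left_inj' hM] at hab
    exact hC (sub_right_injective hab)
  have key : ∀ W : K, ∀ i : Fin 5, ∀ n : ℕ,
      φ^[n] (W + C i) = φ^[n] (C 4 - C 0) * (φ^[n] ((W + C 4) / (C 4 - C 0)) - f i) := by
    intro W i n
    have h1 : W + C i = (C 4 - C 0) * ((W + C 4) / (C 4 - C 0) - f i) := by
      simp only [hf]
      field_simp
      ring
    rw [h1, iterate_map_mul φ n (C 4 - C 0), iterate_map_sub φ n ((W + C 4) / (C 4 - C 0)) (f i),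
      hfi]
  set chi : K → Polynomial K := fun w =>
    ∏ j : Fin 4, (Polynomial.X - Polynomial.C (φ^[(j : ℕ)] w)) with hchi
  have hmon : ∀ w, (chi w).Monic := fun w =>
    Polynomial.monic_prod_of_monic _ _ fun j _ => Polynomial.monic_X_sub_C _
  have hdeg : ∀ w, (chi w).natDegree = 4 := by
    intro w
    simp only [hchi]
    rw [Polynomial.natDegree_prod_of_monic _ _ fun j _ => Polynomial.monic_X_sub_C _]
    simp
  have heval : ∀ w x, (chi w).eval x = ∏ j : Fin 4, (x - φ^[(j : ℕ)] w) := by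
    intro w x
    simp only [hchi, Polynomial.eval_prod, Polynomial.eval_sub, Polynomial.eval_X,
      Polynomial.eval_C]
  have hN : (∏ j : Fin 4, φ^[(j : ℕ)] (C 4 - C 0)) ≠ 0 := by
    refine Finset.prod_ne_zero_iff.2 fun j _ => ?_
    have : ∀ n, φ^[n] (C 4 - C 0) ≠ 0 := by
      intro n
      induction n with
      | zero => exact hM
      | succ n ih =>
        rw [Function.iterate_succ', Function.comp, Ne, map_eq_zero]
        exact ih
    exact this j
  have hval : ∀ W ∈ S, ∀ i, (chi ((W + C 4) / (C 4 - C 0))).eval (f i) =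
      d i / ∏ j : Fin 4, φ^[(j : ℕ)] (C 4 - C 0) := by
    intro W hW i
    rw [heval, eq_div_iff hN, ← hS W hW i]
    have hk : ∏ j : Fin 4, φ^[(j : ℕ)] (W + C i) = ∏ j : Fin 4, (φ^[(j : ℕ)] (C 4 - C 0) *
        (φ^[(j : ℕ)] ((W + C 4) / (C 4 - C 0)) - f i)) :=
      Finset.prod_congr rfl fun j _ => key W i (j : ℕ)
    rw [hk, Finset.prod_mul_distrib, mul_comm]
    congr 1
    have : ∀ j : Fin 4, f i - φ^[(j : ℕ)] ((W + C 4) / (C 4 - C 0)) =
        (-1) * (φ^[(j : ℕ)] ((W + C 4) / (C 4 - C 0)) - f i) := fun j => by ring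
    rw [Finset.prod_congr rfl fun j _ => this j, Finset.prod_mul_distrib, Finset.prod_const,
      Finset.card_univ, Fintype.card_fin]
    ring
  have heq : ∀ W ∈ S, chi ((W + C 4) / (C 4 - C 0)) = chi ((W0 + C 4) / (C 4 - C 0)) := by
    intro W hW
    refine Polynomial.eq_of_degree_sub_lt_of_eval_index_eq (univ : Finset (Fin 5)) (v := f)
      hfinj.injOn ?_ fun i _ => ?_
    · refine lt_of_le_of_lt (Polynomial.degree_sub_le _ _) ?_
      rw [Polynomial.degree_eq_natDegree (hmon _).ne_zero,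
        Polynomial.degree_eq_natDegree (hmon _).ne_zero, hdeg, hdeg]
      simp
      decide
    · rw [hval W hW i, hval W0 hW0 i]
  have hsub : S ⊆ univ.image fun j : Fin 4 =>
      φ^[(j : ℕ)] ((W0 + C 4) / (C 4 - C 0)) * (C 4 - C 0) - C 4 := by
    intro W hW
    have h1 : (chi ((W0 + C 4) / (C 4 - C 0))).eval ((W + C 4) / (C 4 - C 0)) = 0 := by
      rw [← heq W hW, heval]
      refine Finset.prod_eq_zero (Finset.mem_univ (0 : Fin 4)) ?_
      simp
    rw [heval, Finset.prod_eq_zero_iff] at h1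
    obtain ⟨j, _, hj⟩ := h1
    rw [Finset.mem_image]
    refine ⟨j, Finset.mem_univ _, ?_⟩
    rw [← sub_eq_zero.1 hj, div_mul_cancel₀ _ hM]
    ring
  calc S.card ≤ (univ.image fun j : Fin 4 =>
      φ^[(j : ℕ)] ((W0 + C 4) / (C 4 - C 0)) * (C 4 - C 0) - C 4).card := card_le_card hsub
    _ ≤ (univ : Finset (Fin 4)).card := card_image_le
    _ = 4 := by simp

end Pool.Agent.H247R2.PNG
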