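import Pool.Agent.H247R2.PNG.Base

/-!
# Five points: the lower bound `70` for `YY` with four nodes
-/

namespace Pool.Agent.H247R2.PNG

open Finset Module

variable {K : Type} [Field K]

namespace Five

theorem line_zero {f : (Fin 4 → K) → K} (hf : f ∈ Rk K 1) (x : Fin 4 → K) (j : Fin 4) {s t : K}
    (hst : s ≠ t) (hs : f (Function.update x j s) = 0) (ht : f (Function.update x j t) = 0)
    (r : K) : f (Function.update x j r) = 0 := by
  obtain ⟨A, B, h⟩ := affine_line hf x j
  rw [h] at hs ht ⊢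
  have hB : B = 0 := by
    have h1 : B * (s - t) = 0 := by linear_combination hs - ht
    rcases mul_eq_zero.mp h1 with h2 | h2
    · exact h2
    · exact absurd (sub_eq_zero.mp h2) hst
  subst hB
  linear_combination hs

theorem zz_update {n : ℕ} (c : Fin n → Fin 4 → K) (τ : Fin 4 → Fin n) (j : Fin 4) (p : Fin n) :
    zz c (Function.update τ j p) = Function.update (zz c τ) j (-c p j) := by
  funext k
  by_cases h : k = j
  · subst h
    simp [zz]
  · simp [zz, h]

theorem rule {c : Fin 4 → Fin 4 → K} (hc : ∀ j, Function.Injective fun i => c i j)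
    {f : (Fin 4 → K) → K} (hf : f ∈ Rk K 1) (τ : Fin 4 → Fin 4) (j : Fin 4) {p q : Fin 4}
    (hpq : p ≠ q) (h1 : f (zz c (Function.update τ j p)) = 0)
    (h2 : f (zz c (Function.update τ j q)) = 0) (r : Fin 4) :
    f (zz c (Function.update τ j r)) = 0 := by
  rw [zz_update] at h1 h2 ⊢
  refine line_zero hf _ j (fun h => hpq (hc j ?_)) h1 h2 _
  exact neg_injective h

theorem PP_zero (c : Fin 4 → Fin 4 → K) {τ : Fin 4 → Fin 4} {i : Fin 4} (h : ∃ j, τ j = i) :
    PP (c i) (zz c τ) = 0 := by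
  obtain ⟨j, hj⟩ := h
  refine Finset.prod_eq_zero (Finset.mem_univ j) ?_
  simp [zz, hj]

theorem PP_ne {c : Fin 4 → Fin 4 → K} (hc : ∀ j, Function.Injective fun i => c i j)
    {τ : Fin 4 → Fin 4} {i : Fin 4} (h : ∀ j, τ j ≠ i) : PP (c i) (zz c τ) ≠ 0 := by
  refine Finset.prod_ne_zero_iff.mpr fun j _ h1 => h j (hc j ?_)
  show c (τ j) j = c i j
  simp only [zz] at h1
  linear_combination -h1

/-- a multilinear function that vanishes on a grid `2 ^ 4` is zero -/
theorem zero_of_grid {c : Fin 4 → Fin 4 → K} (hc : ∀ j, Function.Injective fun i => c i j)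
    {f : (Fin 4 → K) → K} (hf : f ∈ Rk K 1) {p q : Fin 4} (hpq : p ≠ q)
    (h : ∀ τ : Fin 4 → Fin 4, (∀ j, τ j = p ∨ τ j = q) → f (zz c τ) = 0) : f = 0 := by
  have key : ∀ m : ℕ, ∀ x : Fin 4 → K, (∀ j : Fin 4, m ≤ (j : ℕ) → x j = -c p j ∨ x j = -c q j) →
      f x = 0 := by
    intro m
    induction m with
    | zero =>
      intro x hx
      have h1 : ∀ j, ∃ i : Fin 4, (i = p ∨ i = q) ∧ x j = -c i j := by
        intro j
        rcases hx j (Nat.zero_le _) with h2 | h2
        · exact ⟨p, Or.inl rfl, h2⟩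
        · exact ⟨q, Or.inr rfl, h2⟩
      choose τ hτ hx' using h1
      have : x = zz c τ := funext hx'
      rw [this]
      exact h τ hτ
    | succ m ih =>
      intro x hx
      by_cases hm : m < 4
      · have h1 : ∀ i : Fin 4, (i = p ∨ i = q) → f (Function.update x ⟨m, hm⟩ (-c i ⟨m, hm⟩)) = 0 := by
          intro i hi
          refine ih _ fun j hj => ?_
          by_cases hjm : j = ⟨m, hm⟩
          · subst hjm
            rw [Function.update_self]
            rcases hi with hi | hi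
            · exact Or.inl (by rw [hi])
            · exact Or.inr (by rw [hi])
          · rw [Function.update_of_ne hjm]
            refine hx j ?_
            have : (j : ℕ) ≠ m := fun h => hjm (Fin.ext h)
            omega
        have h2 := line_zero hf x ⟨m, hm⟩ (s := -c p ⟨m, hm⟩) (t := -c q ⟨m, hm⟩)
          (fun h => hpq (hc _ (neg_injective h))) (h1 p (Or.inl rfl)) (h1 q (Or.inr rfl))
          (x ⟨m, hm⟩)
        rwa [Function.update_eq_self] at h2
      · refine ih x fun j hj => ?_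
        have := j.2
        omega
  funext x
  refine key 4 x fun j hj => ?_
  have := j.2
  omega

/-- on a line on which the first three products vanish the last coefficient is constant -/
theorem omega_line {c : Fin 4 → Fin 4 → K} (hc : ∀ j, Function.Injective fun i => c i j)
    {a : Fin 4 → (Fin 4 → K) → K} (ha : ∀ i, a i ∈ Rk K 1) {b : (Fin 4 → K) → K} (hb : b ∈ Rk K 1)
    (rel : ∀ x, ∑ i, PP (c i) x * a i x + b x = 0) (τ : Fin 4 → Fin 4) (j : Fin 4)
    (hτ : ∀ i : Fin 4, i ≠ 3 → ∃ k, k ≠ j ∧ τ k = i) (h3 : ∀ k, k ≠ j → τ k ≠ 3) (p q : Fin 4)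
    (hp : a 3 (zz c (Function.update τ j p)) = 0) :
    a 3 (zz c (Function.update τ j q)) = 0 := by
  obtain ⟨A, B, hAB⟩ := affine_line (ha 3) (zz c τ) j
  obtain ⟨A', B', hAB'⟩ := affine_line hb (zz c τ) j
  set M : K := ∏ k ∈ univ.erase j, (zz c τ k + c 3 k) with hM
  have hM0 : M ≠ 0 := by
    refine Finset.prod_ne_zero_iff.mpr fun k hk h1 => h3 k (Finset.ne_of_mem_erase hk) (hc k ?_)
    show c (τ k) k = c 3 k
    simp only [zz] at h1
    linear_combination -h1
  have hF : ∀ t : K, M * (t + c 3 j) * (A + B * t) + (A' + B' * t) = 0 := by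
    intro t
    have h1 := rel (Function.update (zz c τ) j t)
    rw [Finset.sum_eq_single (3 : Fin 4)] at h1
    · rw [hAB, hAB'] at h1
      have h2 : PP (c 3) (Function.update (zz c τ) j t) = M * (t + c 3 j) := by
        unfold PP
        rw [← Finset.prod_erase_mul univ _ (Finset.mem_univ j), Function.update_self]
        congr 1
        refine Finset.prod_congr rfl fun k hk => ?_
        rw [Function.update_of_ne (Finset.ne_of_mem_erase hk)]
      rw [h2] at h1
      exact h1
    · intro i _ hi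
      obtain ⟨k, hk, hki⟩ := hτ i hi
      have : PP (c i) (Function.update (zz c τ) j t) = 0 := by
        refine Finset.prod_eq_zero (Finset.mem_univ k) ?_
        rw [Function.update_of_ne hk]
        simp [zz, hki]
      rw [this, zero_mul]
    · intro h
      exact absurd (Finset.mem_univ _) h
  have hB : B = 0 := by
    have n01 : c 0 j - c 1 j ≠ 0 := sub_ne_zero.mpr fun h => absurd (hc j h) (by decide)
    have n12 : c 1 j - c 2 j ≠ 0 := sub_ne_zero.mpr fun h => absurd (hc j h) (by decide)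
    have n02 : c 0 j - c 2 j ≠ 0 := sub_ne_zero.mpr fun h => absurd (hc j h) (by decide)
    have h0 := hF (-c 0 j)
    have h1 := hF (-c 1 j)
    have h2 := hF (-c 2 j)
    have h : B * (M * ((c 0 j - c 1 j) * ((c 1 j - c 2 j) * (c 0 j - c 2 j)))) = 0 := by
      linear_combination (c 1 j - c 2 j) * h0 - (c 0 j - c 2 j) * h1 + (c 0 j - c 1 j) * h2
    rcases mul_eq_zero.mp h with h | h
    · exact h
    · exact absurd h (mul_ne_zero hM0 (mul_ne_zero n01 (mul_ne_zero n12 n02)))
  rw [zz_update, hAB, hB] at hp ⊢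
  linear_combination hp

/-! ### the combinatorics of the grid -/

/-- the number of a grid point -/
def ix (a b c d : Fin 3) : ℕ := a + 3 * b + 9 * c + 27 * d

/-- one step of the closure: two points of a grid line give the third -/
def St (L L' : ℕ) : Prop := ∀ a b c d : Fin 3, L'.testBit (ix a b c d) = true →
  (L.testBit (ix a b c d) ||
    (L.testBit (ix (a + 1) b c d) && L.testBit (ix (a + 2) b c d)) ||
    (L.testBit (ix a (b + 1) c d) && L.testBit (ix a (b + 2) c d)) ||
    (L.testBit (ix a b (c + 1) d) && L.testBit (ix a b (c + 2) d)) ||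
    (L.testBit (ix a b c (d + 1)) && L.testBit (ix a b c (d + 2)))) = true

instance (L L' : ℕ) : Decidable (St L L') := by unfold St; infer_instance

theorem st1 : St 128235894890886761007264 1205083045515791338293920 := by decide
theorem st2 : St 1205083045515791338293920 2415485835264916816125601 := by decide
theorem st3 : St 2415485835264916816125601 2417851639210566651739887 := by decide
theorem st4 : St 2417851639210566651739887 2417851639229258349412351 := by decide
theorem all_bits : ∀ a b c d : Fin 3,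
    (2417851639229258349412351 : ℕ).testBit (ix a b c d) = true := by decide

/-- one step of the connection of the surjective points -/
def Sc (L L' : ℕ) : Prop := ∀ a b c d : Fin 3, L'.testBit (ix a b c d) = true →
  (L.testBit (ix a b c d) = true ∨
    ((b ≠ c ∧ b ≠ d ∧ c ≠ d) ∧ ∃ e, L.testBit (ix e b c d) = true) ∨
    ((a ≠ c ∧ a ≠ d ∧ c ≠ d) ∧ ∃ e, L.testBit (ix a e c d) = true) ∨
    ((a ≠ b ∧ a ≠ d ∧ b ≠ d) ∧ ∃ e, L.testBit (ix a b e d) = true) ∨
    ((a ≠ b ∧ a ≠ c ∧ b ≠ c) ∧ ∃ e, L.testBit (ix a b c e) = true))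

instance (L L' : ℕ) : Decidable (Sc L L') := by unfold Sc; infer_instance

theorem sc1 : Sc 2097152 37778932144432153100288 := by decide
theorem sc2 : Sc 37778932144432153100288 37852865522899287031840 := by decide
theorem sc3 : Sc 37852865522899287031840 47897982577679757166752 := by decide
theorem sc4 : Sc 47897982577679757166752 47955664682034072897696 := by decide

/-- the grid point with the indices `a b c d` -/
def gg (a b c d : Fin 3) : Fin 4 → Fin 4 := ![a.castSucc, b.castSucc, c.castSucc, d.castSucc]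

theorem gg0 (a b c d e : Fin 3) : Function.update (gg a b c d) 0 e.castSucc = gg e b c d := by
  funext k
  fin_cases k <;> rfl

theorem gg1 (a b c d e : Fin 3) : Function.update (gg a b c d) 1 e.castSucc = gg a e c d := by
  funext k
  fin_cases k <;> rfl

theorem gg2 (a b c d e : Fin 3) : Function.update (gg a b c d) 2 e.castSucc = gg a b e d := by
  funext k
  fin_cases k <;> rfl

theorem gg3 (a b c d e : Fin 3) : Function.update (gg a b c d) 3 e.castSucc = gg a b c e := by
  funext k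
  fin_cases k <;> rfl

theorem ne12 : ∀ a : Fin 3, (a + 1).castSucc ≠ (a + 2).castSucc := by decide

theorem closure_step {c : Fin 4 → Fin 4 → K} (hc : ∀ j, Function.Injective fun i => c i j)
    {f : (Fin 4 → K) → K} (hf : f ∈ Rk K 1) {L L' : ℕ} (h : St L L')
    (hL : ∀ p q r s, L.testBit (ix p q r s) = true → f (zz c (gg p q r s)) = 0) :
    ∀ p q r s, L'.testBit (ix p q r s) = true → f (zz c (gg p q r s)) = 0 := by
  intro p q r s hp
  have h1 := h p q r s hp
  simp only [Bool.or_eq_true, Bool.and_eq_true] at h1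
  rcases h1 with (((h1 | h1) | h1) | h1) | h1
  · exact hL p q r s h1
  · have h2 := rule hc hf (gg p q r s) 0 (ne12 p) (by rw [gg0]; exact hL _ _ _ _ h1.1)
      (by rw [gg0]; exact hL _ _ _ _ h1.2) p.castSucc
    rwa [gg0] at h2
  · have h2 := rule hc hf (gg p q r s) 1 (ne12 q) (by rw [gg1]; exact hL _ _ _ _ h1.1)
      (by rw [gg1]; exact hL _ _ _ _ h1.2) q.castSucc
    rwa [gg1] at h2
  · have h2 := rule hc hf (gg p q r s) 2 (ne12 r) (by rw [gg2]; exact hL _ _ _ _ h1.1)
      (by rw [gg2]; exact hL _ _ _ _ h1.2) r.castSucc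
    rwa [gg2] at h2
  · have h2 := rule hc hf (gg p q r s) 3 (ne12 s) (by rw [gg3]; exact hL _ _ _ _ h1.1)
      (by rw [gg3]; exact hL _ _ _ _ h1.2) s.castSucc
    rwa [gg3] at h2

theorem closure_all {c : Fin 4 → Fin 4 → K} (hc : ∀ j, Function.Injective fun i => c i j)
    {f : (Fin 4 → K) → K} (hf : f ∈ Rk K 1)
    (hL : ∀ p q r s, (128235894890886761007264 : ℕ).testBit (ix p q r s) = true →
      f (zz c (gg p q r s)) = 0) (p q r s : Fin 3) : f (zz c (gg p q r s)) = 0 :=
  closure_step hc hf st4 (closure_step hc hf st3 (closure_step hc hf st2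
    (closure_step hc hf st1 hL))) p q r s (all_bits p q r s)

theorem zero_of_base {c : Fin 4 → Fin 4 → K} (hc : ∀ j, Function.Injective fun i => c i j)
    {f : (Fin 4 → K) → K} (hf : f ∈ Rk K 1)
    (hL : ∀ p q r s, (128235894890886761007264 : ℕ).testBit (ix p q r s) = true →
      f (zz c (gg p q r s)) = 0) : f = 0 := by
  refine zero_of_grid hc hf (p := 0) (q := 1) (by decide) fun τ hτ => ?_
  have h1 : ∀ j, ∃ i : Fin 3, τ j = i.castSucc := by
    intro j
    rcases hτ j with h | h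
    · exact ⟨0, h⟩
    · exact ⟨1, h⟩
  choose σ hσ using h1
  have h2 : τ = gg (σ 0) (σ 1) (σ 2) (σ 3) := by
    funext k
    fin_cases k
    · exact hσ 0
    · exact hσ 1
    · exact hσ 2
    · exact hσ 3
  rw [h2]
  exact closure_all hc hf hL _ _ _ _

theorem cover : ∀ b c d : Fin 3, b ≠ c ∧ b ≠ d ∧ c ≠ d → ∀ i : Fin 4, i ≠ 3 →
    b.castSucc = i ∨ c.castSucc = i ∨ d.castSucc = i := by decide

theorem cs3 : ∀ b : Fin 3, b.castSucc ≠ (3 : Fin 4) := by decide

section

variable {c : Fin 4 → Fin 4 → K} {a : Fin 4 → (Fin 4 → K) → K} {b : (Fin 4 → K) → K}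

theorem omega0 (hc : ∀ j, Function.Injective fun i => c i j) (ha : ∀ i, a i ∈ Rk K 1)
    (hb : b ∈ Rk K 1) (rel : ∀ x, ∑ i, PP (c i) x * a i x + b x = 0) {p q r s e : Fin 3}
    (h : q ≠ r ∧ q ≠ s ∧ r ≠ s) (h0 : a 3 (zz c (gg e q r s)) = 0) :
    a 3 (zz c (gg p q r s)) = 0 := by
  rw [← gg0 p q r s] at h0 ⊢
  refine omega_line hc ha hb rel _ 0 (fun i hi => ?_) (fun k _ => ?_) _ _ h0
  · rcases cover _ _ _ h i hi with h1 | h1 | h1
    · exact ⟨1, by decide, h1⟩
    · exact ⟨2, by decide, h1⟩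
    · exact ⟨3, by decide, h1⟩
  · fin_cases k <;> exact cs3 _

theorem omega1 (hc : ∀ j, Function.Injective fun i => c i j) (ha : ∀ i, a i ∈ Rk K 1)
    (hb : b ∈ Rk K 1) (rel : ∀ x, ∑ i, PP (c i) x * a i x + b x = 0) {p q r s e : Fin 3}
    (h : p ≠ r ∧ p ≠ s ∧ r ≠ s) (h0 : a 3 (zz c (gg p e r s)) = 0) :
    a 3 (zz c (gg p q r s)) = 0 := by
  rw [← gg1 p q r s] at h0 ⊢
  refine omega_line hc ha hb rel _ 1 (fun i hi => ?_) (fun k _ => ?_) _ _ h0
  · rcases cover _ _ _ h i hi with h1 | h1 | h1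
    · exact ⟨0, by decide, h1⟩
    · exact ⟨2, by decide, h1⟩
    · exact ⟨3, by decide, h1⟩
  · fin_cases k <;> exact cs3 _

theorem omega2 (hc : ∀ j, Function.Injective fun i => c i j) (ha : ∀ i, a i ∈ Rk K 1)
    (hb : b ∈ Rk K 1) (rel : ∀ x, ∑ i, PP (c i) x * a i x + b x = 0) {p q r s e : Fin 3}
    (h : p ≠ q ∧ p ≠ s ∧ q ≠ s) (h0 : a 3 (zz c (gg p q e s)) = 0) :
    a 3 (zz c (gg p q r s)) = 0 := by
  rw [← gg2 p q r s] at h0 ⊢
  refine omega_line hc ha hb rel _ 2 (fun i hi => ?_) (fun k _ => ?_) _ _ h0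
  · rcases cover _ _ _ h i hi with h1 | h1 | h1
    · exact ⟨0, by decide, h1⟩
    · exact ⟨1, by decide, h1⟩
    · exact ⟨3, by decide, h1⟩
  · fin_cases k <;> exact cs3 _

theorem omega3 (hc : ∀ j, Function.Injective fun i => c i j) (ha : ∀ i, a i ∈ Rk K 1)
    (hb : b ∈ Rk K 1) (rel : ∀ x, ∑ i, PP (c i) x * a i x + b x = 0) {p q r s e : Fin 3}
    (h : p ≠ q ∧ p ≠ r ∧ q ≠ r) (h0 : a 3 (zz c (gg p q r e)) = 0) :
    a 3 (zz c (gg p q r s)) = 0 := by
  rw [← gg3 p q r s] at h0 ⊢
  refine omega_line hc ha hb rel _ 3 (fun i hi => ?_) (fun k _ => ?_) _ _ h0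
  · rcases cover _ _ _ h i hi with h1 | h1 | h1
    · exact ⟨0, by decide, h1⟩
    · exact ⟨1, by decide, h1⟩
    · exact ⟨2, by decide, h1⟩
  · fin_cases k <;> exact cs3 _

theorem omega_step (hc : ∀ j, Function.Injective fun i => c i j) (ha : ∀ i, a i ∈ Rk K 1)
    (hb : b ∈ Rk K 1) (rel : ∀ x, ∑ i, PP (c i) x * a i x + b x = 0) {L L' : ℕ} (h : Sc L L')
    (hL : ∀ p q r s, L.testBit (ix p q r s) = true → a 3 (zz c (gg p q r s)) = 0) :
    ∀ p q r s, L'.testBit (ix p q r s) = true → a 3 (zz c (gg p q r s)) = 0 := by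
  intro p q r s hp
  rcases h p q r s hp with h1 | ⟨h1, e, he⟩ | ⟨h1, e, he⟩ | ⟨h1, e, he⟩ | ⟨h1, e, he⟩
  · exact hL p q r s h1
  · exact omega0 hc ha hb rel h1 (hL _ _ _ _ he)
  · exact omega1 hc ha hb rel h1 (hL _ _ _ _ he)
  · exact omega2 hc ha hb rel h1 (hL _ _ _ _ he)
  · exact omega3 hc ha hb rel h1 (hL _ _ _ _ he)

theorem first_bit : ∀ p q r s : Fin 3, (2097152 : ℕ).testBit (ix p q r s) = true →
    p = 0 ∧ q = 1 ∧ r = 2 ∧ s = 0 := by decide

theorem omega_all (hc : ∀ j, Function.Injective fun i => c i j) (ha : ∀ i, a i ∈ Rk K 1)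
    (hb : b ∈ Rk K 1) (rel : ∀ x, ∑ i, PP (c i) x * a i x + b x = 0)
    (h0 : a 3 (zz c (gg 0 1 2 0)) = 0) :
    ∀ p q r s, (47955664682034072897696 : ℕ).testBit (ix p q r s) = true →
      a 3 (zz c (gg p q r s)) = 0 :=
  omega_step hc ha hb rel sc4 (omega_step hc ha hb rel sc3 (omega_step hc ha hb rel sc2
    (omega_step hc ha hb rel sc1 fun p q r s h => by
      obtain ⟨rfl, rfl, rfl, rfl⟩ := first_bit p q r s h
      exact h0)))

theorem base_bits : ∀ p q r s : Fin 3, (128235894890886761007264 : ℕ).testBit (ix p q r s) = true →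
    (47955664682034072897696 : ℕ).testBit (ix p q r s) = true ∨
      (p = 1 ∧ q = 1 ∧ r = 2 ∧ s = 2) ∨ (p = 0 ∧ q = 0 ∧ r = 2 ∧ s = 2) ∨
      (p = 0 ∧ q = 0 ∧ r = 1 ∧ s = 1) := by decide

theorem omega_cover : ∀ p q r s : Fin 3,
    (47955664682034072897696 : ℕ).testBit (ix p q r s) = true → ∀ i : Fin 4, i ≠ 3 →
      ∃ j, gg p q r s j = i := by decide

theorem all_zero (hc : ∀ j, Function.Injective fun i => c i j) (ha : ∀ i, a i ∈ Rk K 1)
    (hb : b ∈ Rk K 1) (rel : ∀ x, ∑ i, PP (c i) x * a i x + b x = 0)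
    (h0 : a 3 (zz c (gg 0 1 2 0)) = 0)
    (h1 : a 3 (zz c (gg 1 1 2 2)) = 0) (h2 : a 3 (zz c (gg 0 0 2 2)) = 0)
    (h3 : a 3 (zz c (gg 0 0 1 1)) = 0)
    (h4 : b (zz c (gg 1 1 2 2)) = 0) (h5 : b (zz c (gg 0 0 2 2)) = 0)
    (h6 : b (zz c (gg 0 0 1 1)) = 0)
    (h7 : a 0 (zz c (gg 2 2 2 2)) = 0) (h8 : a 0 (zz c (gg 1 1 1 1)) = 0)
    (h9 : a 1 (zz c (gg 0 0 0 0)) = 0) : (∀ i, a i = 0) ∧ b = 0 := by
  have hom := omega_all hc ha hb rel h0
  have ha3 : a 3 = 0 := by
    refine zero_of_base hc (ha 3) fun p q r s h => ?_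
    rcases base_bits p q r s h with h | ⟨rfl, rfl, rfl, rfl⟩ | ⟨rfl, rfl, rfl, rfl⟩ |
      ⟨rfl, rfl, rfl, rfl⟩
    · exact hom p q r s h
    · exact h1
    · exact h2
    · exact h3
  have hb0 : b = 0 := by
    refine zero_of_base hc hb fun p q r s h => ?_
    rcases base_bits p q r s h with h | ⟨rfl, rfl, rfl, rfl⟩ | ⟨rfl, rfl, rfl, rfl⟩ |
      ⟨rfl, rfl, rfl, rfl⟩
    · have hr := rel (zz c (gg p q r s))
      rw [Fin.sum_univ_four, PP_zero c (omega_cover p q r s h 0 (by decide)),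
        PP_zero c (omega_cover p q r s h 1 (by decide)),
        PP_zero c (omega_cover p q r s h 2 (by decide)), ha3] at hr
      simpa using hr
    · exact h4
    · exact h5
    · exact h6
  subst hb0
  have rel3 : ∀ x, PP (c 0) x * a 0 x + PP (c 1) x * a 1 x + PP (c 2) x * a 2 x = 0 := by
    intro x
    have := rel x
    rw [Fin.sum_univ_four, ha3] at this
    simpa using this
  have ha0 : a 0 = 0 := by
    refine zero_of_grid hc (ha 0) (p := 1) (q := 2) (by decide) fun τ hτ => ?_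
    by_cases e1 : ∃ j, τ j = 1
    · by_cases e2 : ∃ j, τ j = 2
      · have hr := rel3 (zz c τ)
        rw [PP_zero c e1, PP_zero c e2, zero_mul, zero_mul, add_zero, add_zero] at hr
        refine (mul_eq_zero.mp hr).resolve_left (PP_ne hc fun j hj => ?_)
        rcases hτ j with h | h <;> rw [h] at hj <;> exact absurd hj (by decide)
      · have : τ = gg 1 1 1 1 := by
          funext j
          have h : τ j = 1 := (hτ j).resolve_right fun h => e2 ⟨j, h⟩
          rw [h]
          fin_cases j <;> rfl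
        rw [this]
        exact h8
    · have : τ = gg 2 2 2 2 := by
        funext j
        have h : τ j = 2 := (hτ j).resolve_left fun h => e1 ⟨j, h⟩
        rw [h]
        fin_cases j <;> rfl
      rw [this]
      exact h7
  have rel2 : ∀ x, PP (c 1) x * a 1 x + PP (c 2) x * a 2 x = 0 := by
    intro x
    have := rel3 x
    rw [ha0] at this
    simpa using this
  have ha1 : a 1 = 0 := by
    refine zero_of_grid hc (ha 1) (p := 0) (q := 2) (by decide) fun τ hτ => ?_
    by_cases e2 : ∃ j, τ j = 2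
    · have hr := rel2 (zz c τ)
      rw [PP_zero c e2, zero_mul, add_zero] at hr
      refine (mul_eq_zero.mp hr).resolve_left (PP_ne hc fun j hj => ?_)
      rcases hτ j with h | h <;> rw [h] at hj <;> exact absurd hj (by decide)
    · have : τ = gg 0 0 0 0 := by
        funext j
        have h : τ j = 0 := (hτ j).resolve_right fun h => e2 ⟨j, h⟩
        rw [h]
        fin_cases j <;> rfl
      rw [this]
      exact h9
  have ha2 : a 2 = 0 := by
    refine zero_of_grid hc (ha 2) (p := 0) (q := 1) (by decide) fun τ hτ => ?_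
    have hr := rel2 (zz c τ)
    rw [ha1, Pi.zero_apply, mul_zero, zero_add] at hr
    refine (mul_eq_zero.mp hr).resolve_left (PP_ne hc fun j hj => ?_)
    rcases hτ j with h | h <;> rw [h] at hj <;> exact absurd hj (by decide)
  refine ⟨fun i => ?_, rfl⟩
  fin_cases i
  · exact ha0
  · exact ha1
  · exact ha2
  · exact ha3

end

instance {n : ℕ} (c : Fin n → Fin 4 → K) : FiniteDimensional K (YY c) := by
  unfold YY mulP
  infer_instance

end Five

open Five in
theorem five_points (c : Fin 4 → Fin 4 → K) (hc : ∀ j, Function.Injective fun i => c i j) :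
    70 ≤ finrank K (YY c) := by
  let T1 : ((Fin 4 → Rk K 1) × Rk K 1) →ₗ[K] ((Fin 4 → K) → K) :=
    (∑ i, (LinearMap.mulLeft K (PP (c i))) ∘ₗ (Rk K 1).subtype ∘ₗ (LinearMap.proj i) ∘ₗ
      LinearMap.fst K _ _) + (Rk K 1).subtype ∘ₗ LinearMap.snd K _ _
  have hT1 : ∀ e x, T1 e x = ∑ i, PP (c i) x * (e.1 i : (Fin 4 → K) → K) x +
      (e.2 : (Fin 4 → K) → K) x := by
    intro e x
    simp [T1, LinearMap.sum_apply, Finset.sum_apply]
  let A : Fin 4 → (Fin 4 → Fin 4) → (((Fin 4 → Rk K 1) × Rk K 1) →ₗ[K] K) := fun i τ =>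
    (LinearMap.proj (zz c τ)) ∘ₗ (Rk K 1).subtype ∘ₗ (LinearMap.proj i) ∘ₗ LinearMap.fst K _ _
  let B : (Fin 4 → Fin 4) → (((Fin 4 → Rk K 1) × Rk K 1) →ₗ[K] K) := fun τ =>
    (LinearMap.proj (zz c τ)) ∘ₗ (Rk K 1).subtype ∘ₗ LinearMap.snd K _ _
  let T2 : ((Fin 4 → Rk K 1) × Rk K 1) →ₗ[K] (Fin 10 → K) :=
    LinearMap.pi ![A 3 (gg 0 1 2 0), A 3 (gg 1 1 2 2), A 3 (gg 0 0 2 2), A 3 (gg 0 0 1 1),
      B (gg 1 1 2 2), B (gg 0 0 2 2), B (gg 0 0 1 1), A 0 (gg 2 2 2 2), A 0 (gg 1 1 1 1),
      A 1 (gg 0 0 0 0)]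
  have hdim : finrank K ((Fin 4 → Rk K 1) × Rk K 1) = 80 := by
    rw [Module.finrank_prod, Module.finrank_pi_fintype, finrank_R1]
    simp
  have hrange : finrank K (LinearMap.range T1) ≤ finrank K (YY c) := by
    refine Submodule.finrank_mono ?_
    rintro _ ⟨e, rfl⟩
    have h1 : T1 e = ∑ i, PP (c i) * (e.1 i : (Fin 4 → K) → K) + (e.2 : (Fin 4 → K) → K) := by
      funext x
      rw [hT1]
      simp
    rw [h1]
    refine Submodule.add_mem _ (Submodule.sum_mem _ fun i _ => ?_) ?_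
    · exact Submodule.mem_sup_right (Submodule.mem_iSup_of_mem i ⟨_, (e.1 i).2, rfl⟩)
    · exact Submodule.mem_sup_left e.2.2
  have hker : finrank K (LinearMap.ker T1) ≤ 10 := by
    have h1 : Function.Injective (T2 ∘ₗ (LinearMap.ker T1).subtype) := by
      refine (injective_iff_map_eq_zero _).mpr fun e he => ?_
      have hk : ∀ x, ∑ i, PP (c i) x * ((e : (Fin 4 → Rk K 1) × Rk K 1).1 i : (Fin 4 → K) → K) x +
          ((e : (Fin 4 → Rk K 1) × Rk K 1).2 : (Fin 4 → K) → K) x = 0 := by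
        intro x
        rw [← hT1, LinearMap.mem_ker.mp e.2]
        rfl
      have hz := all_zero hc (fun i => ((e : (Fin 4 → Rk K 1) × Rk K 1).1 i).2)
        (e : (Fin 4 → Rk K 1) × Rk K 1).2.2 hk (congrFun he 0) (congrFun he 1) (congrFun he 2)
        (congrFun he 3) (congrFun he 4) (congrFun he 5) (congrFun he 6) (congrFun he 7)
        (congrFun he 8) (congrFun he 9)
      apply Subtype.ext
      refine Prod.ext ?_ ?_
      · funext i
        exact Subtype.ext (hz.1 i)
      · exact Subtype.ext hz.2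
    have h2 := LinearMap.finrank_le_finrank_of_injective h1
    rwa [Module.finrank_fintype_fun_eq_card, Fintype.card_fin] at h2
  have h := LinearMap.finrank_range_add_finrank_ker T1
  omega

end Pool.Agent.H247R2.PNG
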