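import Pool.Agent.H247R2.PNG.Lam

set_option autoImplicit false

/-! # The sixth point adds at least four dimensions (task D) -/

namespace Pool.Agent.H247R2.PNG

open Finset Module

variable {K : Type} [Field K]

namespace Gram

/-- the multilinear function `∏_{l ≠ j} (x l + c i l)` -/
def FF (c : Fin 4 → Fin 4 → K) (i j : Fin 4) : (Fin 4 → K) → K :=
  fun x => ∏ l, if l = j then 1 else (x l + c i l)

theorem FF_mem (c : Fin 4 → Fin 4 → K) (i j : Fin 4) : FF c i j ∈ Rk K 1 := by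
  have h := prod_mem_Rk (K := K) (k := 1)
    (fun l => if l = j then (1 : Polynomial K) else Polynomial.X + Polynomial.C (c i l))
    (by
      intro l
      by_cases hl : l = j
      · simp [hl]
      · simp only [hl, if_false]
        rw [Polynomial.natDegree_X_add_C])
  have e : (fun x : Fin 4 → K => ∏ l,
      (if l = j then (1 : Polynomial K) else Polynomial.X + Polynomial.C (c i l)).eval (x l)) =
      FF c i j := by
    funext x
    unfold FF
    apply Finset.prod_congr rfl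
    intro l _
    by_cases hl : l = j
    · simp [hl]
    · simp [hl]
  rw [← e]
  exact h

theorem FF_zz (c : Fin 4 → Fin 4 → K) (i j : Fin 4) (σ : Equiv.Perm (Fin 4)) (h : σ j ≠ i) :
    FF c i j (zz c σ) = 0 := by
  unfold FF
  apply Finset.prod_eq_zero (Finset.mem_univ (σ.symm i))
  have hne : σ.symm i ≠ j := by
    intro e
    apply h
    rw [← e, Equiv.apply_symm_apply]
  rw [if_neg hne]
  simp [zz]

theorem lam_apply (c : Fin 4 → Fin 4 → K) (f : (Fin 4 → K) → K) :
    lam c f = ∑ σ : Equiv.Perm (Fin 4), ((Equiv.Perm.sign σ : ℤ) : K) *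
      ((∏ j, ww c (σ j) j)⁻¹ * f (zz c σ)) := by
  unfold lam
  simp [LinearMap.sum_apply]

theorem lam_zero (c : Fin 4 → Fin 4 → K) (f : (Fin 4 → K) → K)
    (h : ∀ σ : Equiv.Perm (Fin 4), f (zz c σ) = 0) : lam c f = 0 := by
  rw [lam_apply]
  apply Finset.sum_eq_zero
  intro σ _
  rw [h σ]
  ring

theorem lam_FF (c : Fin 4 → Fin 4 → K) (f : (Fin 4 → K) → K) (i j k l : Fin 4)
    (h : ¬ (i = k ∧ j = l)) (h' : i = k ∨ j = l) : lam c (FF c i j * (f * FF c k l)) = 0 := by
  apply lam_zero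
  intro σ
  simp only [Pi.mul_apply]
  by_cases h1 : σ j = i
  · by_cases h2 : σ l = k
    · exfalso
      apply h
      rcases h' with h' | h'
      · refine ⟨h', ?_⟩
        apply σ.injective
        rw [h1, h2, h']
      · refine ⟨?_, h'⟩
        rw [← h1, ← h2, h']
    · rw [FF_zz c k l σ h2]; ring
  · rw [FF_zz c i j σ h1]; ring

theorem YY_le (c : Fin 5 → Fin 4 → K) (c' : Fin 4 → Fin 4 → K) (hcc : ∀ i, c' i = c i.castSucc) :
    YY c' ≤ YY c := by
  unfold YY
  apply sup_le_sup_left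
  apply iSup_le
  intro i
  rw [hcc i]
  exact le_iSup (fun i => mulP (c i)) i.castSucc

theorem fin_YY (c : Fin 5 → Fin 4 → K) : FiniteDimensional K (YY c) := by
  have hfin1 : ∀ i, FiniteDimensional K (mulP (c i)) := fun i => by
    unfold mulP
    infer_instance
  unfold YY
  infer_instance

theorem ker_YY (c' : Fin 4 → Fin 4 → K) (hc : ∀ j, Function.Injective fun i : Fin 4 => c' i j)
    (u : (Fin 4 → K) → K) (hu : u ∈ Rk K 1) :
    YY c' ≤ LinearMap.ker ((lam c').comp (LinearMap.mulLeft K u)) := by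
  unfold YY
  apply sup_le
  · intro f hf
    refine LinearMap.mem_ker.mpr ?_
    change lam c' (u * f) = 0
    exact lam_R2 c' hc (Rk_mono (show 1 + 1 ≤ 2 from le_refl _) (mul_mem_Rk hu hf))
  · apply iSup_le
    intro i f hf
    unfold mulP at hf
    rw [Submodule.mem_map] at hf
    obtain ⟨a, _, rfl⟩ := hf
    refine LinearMap.mem_ker.mpr ?_
    change lam c' (u * (PP (c' i) * a)) = 0
    rw [mul_left_comm]
    exact lam_mulP c' i _

/-- four functions with a surjective pairing give four more dimensions -/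
theorem rank_add (c : Fin 5 → Fin 4 → K) (c' : Fin 4 → Fin 4 → K) (hcc : ∀ i, c' i = c i.castSucc)
    (hc : ∀ j, Function.Injective fun i : Fin 4 => c' i j)
    (u : Fin 4 → (Fin 4 → K) → K) (hu : ∀ k, u k ∈ Rk K 1)
    (hs : ∀ v : Fin 4 → K, ∃ α : Fin 4 → K, ∀ k,
      ∑ l, α l * lam c' (u k * (PP (c 4) * u l)) = v k) :
    finrank K (YY c') + 4 ≤ finrank K (YY c) := by
  let T : ((Fin 4 → K) → K) →ₗ[K] (Fin 4 → K) :=
    LinearMap.pi (fun k => (lam c').comp (LinearMap.mulLeft K (u k)))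
  have hT : ∀ f k, T f k = lam c' (u k * f) := fun f k => rfl
  have hWV : YY c' ≤ YY c := YY_le c c' hcc
  have hW0 : ∀ f ∈ YY c', T f = 0 := by
    intro f hf
    funext k
    exact ker_YY c' hc (u k) (hu k) hf
  have hfin : FiniteDimensional K (YY c) := fin_YY c
  have hmem : ∀ l, PP (c 4) * u l ∈ YY c := by
    intro l
    unfold YY
    apply Submodule.mem_sup_right
    apply Submodule.mem_iSup_of_mem (4 : Fin 5)
    unfold mulP
    rw [Submodule.mem_map]
    exact ⟨u l, hu l, rfl⟩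
  have hsurj : LinearMap.range (T.domRestrict (YY c)) = ⊤ := by
    rw [LinearMap.range_eq_top]
    intro v
    obtain ⟨α, hα⟩ := hs v
    refine ⟨∑ l, α l • ⟨PP (c 4) * u l, hmem l⟩, ?_⟩
    rw [map_sum]
    funext k
    rw [Finset.sum_apply, ← hα k]
    apply Finset.sum_congr rfl
    intro l _
    rw [map_smul, Pi.smul_apply, LinearMap.domRestrict_apply, hT, smul_eq_mul]
  have h1 := LinearMap.finrank_range_add_finrank_ker (T.domRestrict (YY c))
  rw [hsurj, finrank_top, Module.finrank_fin_fun] at h1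
  have h2 : Submodule.comap (YY c).subtype (YY c') ≤ LinearMap.ker (T.domRestrict (YY c)) := by
    intro f hf
    rw [LinearMap.mem_ker, LinearMap.domRestrict_apply]
    exact hW0 _ hf
  have h3 := Submodule.finrank_mono h2
  have h4 := (Submodule.comapSubtypeEquivOfLe hWV).finrank_eq
  rw [h4] at h3
  omega

theorem pt_cyc (φ : K →+* K) (hφ : ∀ x, φ (φ (φ (φ x))) = x) (x : K) (j : Fin 4) :
    φ (pt φ x j) = pt φ x (j + 1) := by
  fin_cases j
  · simp [pt]
  · simp [pt]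
  · simp [pt]
  · simpa [pt] using hφ x

theorem lam_phi (φ : K →+* K) (hφ : ∀ x, φ (φ (φ (φ x))) = x) (C : Fin 5 → K) (i : Fin 4) :
    ∃ s : K, s ≠ 0 ∧ ∀ j,
      φ (lam (fun i : Fin 4 => pt φ (C i.castSucc)) (FF (fun i : Fin 4 => pt φ (C i.castSucc)) i j *
        (PP (pt φ (C 4)) * FF (fun i : Fin 4 => pt φ (C i.castSucc)) i j))) =
      s * lam (fun i : Fin 4 => pt φ (C i.castSucc)) (FF (fun i : Fin 4 => pt φ (C i.castSucc)) i (j + 1) *
        (PP (pt φ (C 4)) * FF (fun i : Fin 4 => pt φ (C i.castSucc)) i (j + 1))) := by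
  set c' : Fin 4 → Fin 4 → K := fun i : Fin 4 => pt φ (C i.castSucc) with hc'
  set τ : Equiv.Perm (Fin 4) := Equiv.addRight 1 with hτ
  have hτ1 : ∀ l, τ l = l + 1 := fun l => rfl
  have hcyc : ∀ a l, φ (c' a l) = c' a (l + 1) := fun a l => pt_cyc φ hφ _ l
  refine ⟨((Equiv.Perm.sign τ : ℤ) : K), ?_, ?_⟩
  · rcases Int.units_eq_one_or (Equiv.Perm.sign τ) with h | h
    · rw [h]; simp
    · rw [h]; simp
  · intro j
    rw [lam_apply, lam_apply, map_sum]
    have hzz : ∀ (σ ρ : Equiv.Perm (Fin 4)), (∀ l, ρ (l + 1) = σ l) → ∀ l,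
        φ (zz c' σ l) = zz c' ρ (l + 1) := by
      intro σ ρ hρ l
      unfold zz
      rw [map_neg, hcyc, hρ]
    have hww : ∀ a l, φ (ww c' a l) = ww c' a (l + 1) := by
      intro a l
      unfold ww
      rw [map_prod]
      apply Finset.prod_congr rfl
      intro b _
      rw [map_sub, hcyc, hcyc]
    have hwp : ∀ (σ ρ : Equiv.Perm (Fin 4)), (∀ l, ρ (l + 1) = σ l) →
        φ (∏ l, ww c' (σ l) l) = ∏ l, ww c' (ρ l) l := by
      intro σ ρ hρ
      rw [map_prod, ← Equiv.prod_comp τ (fun l => ww c' (ρ l) l)]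
      apply Finset.prod_congr rfl
      intro l _
      rw [hww, hτ1, hρ]
    have hPP : ∀ (σ ρ : Equiv.Perm (Fin 4)), (∀ l, ρ (l + 1) = σ l) →
        φ (PP (pt φ (C 4)) (zz c' σ)) = PP (pt φ (C 4)) (zz c' ρ) := by
      intro σ ρ hρ
      unfold PP
      rw [map_prod, ← Equiv.prod_comp τ (fun l => zz c' ρ l + pt φ (C 4) l)]
      apply Finset.prod_congr rfl
      intro l _
      rw [map_add, hzz σ ρ hρ, pt_cyc φ hφ, hτ1]
    have hFF : ∀ (σ ρ : Equiv.Perm (Fin 4)), (∀ l, ρ (l + 1) = σ l) →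
        φ (FF c' i j (zz c' σ)) = FF c' i (j + 1) (zz c' ρ) := by
      intro σ ρ hρ
      unfold FF
      rw [map_prod, ← Equiv.prod_comp τ
        (fun l => if l = j + 1 then 1 else zz c' ρ l + c' i l)]
      apply Finset.prod_congr rfl
      intro l _
      rw [hτ1]
      by_cases hl : l = j
      · rw [if_pos hl, if_pos (by rw [hl]), map_one]
      · rw [if_neg hl, if_neg (fun h => hl (add_right_cancel h)), map_add, hzz σ ρ hρ, hcyc]
    rw [Finset.mul_sum]
    refine (Equiv.sum_comp (Equiv.mulRight τ) _).symm.trans ?_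
    apply Finset.sum_congr rfl
    intro ρ _
    rw [Equiv.coe_mulRight]
    have hρ : ∀ l, ρ (l + 1) = (ρ * τ) l := by
      intro l
      rw [Equiv.Perm.mul_apply, hτ1]
    have hsg : (((Equiv.Perm.sign (ρ * τ) : ℤˣ) : ℤ) : K) =
        ((Equiv.Perm.sign τ : ℤ) : K) * ((Equiv.Perm.sign ρ : ℤ) : K) := by
      rw [Equiv.Perm.sign_mul]
      push_cast
      ring
    beta_reduce
    rw [map_mul φ, map_mul φ, map_inv₀ φ, hwp _ ρ hρ, map_intCast φ, hsg]
    simp only [Pi.mul_apply, map_mul φ]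
    rw [hPP _ ρ hρ, hFF _ ρ hρ]
    ring

theorem fin4_orbit : ∀ j0 j : Fin 4, j = j0 ∨ j = j0 + 1 ∨ j = j0 + 1 + 1 ∨ j = j0 + 1 + 1 + 1 := by
  decide

end Gram

/-- the sixth point adds at least four dimensions -/
theorem six_points (φ : K →+* K) (hφ : ∀ x, φ (φ (φ (φ x))) = x) (C : Fin 5 → K)
    (hC : Function.Injective C)
    (hm : (C 4 - C 2) * φ (C 4 - C 3) ≠ (C 4 - C 3) * φ (C 4 - C 2)) :
    finrank K (YY fun i : Fin 4 => pt φ (C i.castSucc)) + 4 ≤
      finrank K (YY fun i : Fin 5 => pt φ (C i)) := by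
  have hit : ∀ j : Fin 4, Function.Injective (φ^[(j : ℕ)]) := fun j => φ.injective.iterate _
  have hc5 : ∀ j, Function.Injective fun i : Fin 5 => (fun i : Fin 5 => pt φ (C i)) i j := by
    intro j a b h
    exact hC (hit j h)
  have hc4 : ∀ j, Function.Injective fun i : Fin 4 => (fun i : Fin 4 => pt φ (C i.castSucc)) i j := by
    intro j a b h
    exact Fin.castSucc_injective _ (hc5 j h)
  have hne := lam_ne (fun i : Fin 5 => pt φ (C i)) hc5 (by simpa [pt] using hm)
  set c : Fin 5 → Fin 4 → K := fun i : Fin 5 => pt φ (C i) with hcdef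
  set c' : Fin 4 → Fin 4 → K := fun i : Fin 4 => c i.castSucc with hc'def
  have hF02 : (fun x : Fin 4 → K => (x 0 + c 0 0) * (x 1 + c 0 1) * (x 3 + c 0 3)) = Gram.FF c' 0 2 := by
    funext x
    simp [Gram.FF, Fin.prod_univ_four, hc'def]
  have hF13 : (fun x : Fin 4 → K => (x 0 + c 1 0) * (x 1 + c 1 1) * (x 2 + c 1 2)) = Gram.FF c' 1 3 := by
    funext x
    simp [Gram.FF, Fin.prod_univ_four, hc'def]
  have hF03 : (fun x : Fin 4 → K => (x 0 + c 0 0) * (x 1 + c 0 1) * (x 2 + c 0 2)) = Gram.FF c' 0 3 := by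
    funext x
    simp [Gram.FF, Fin.prod_univ_four, hc'def]
  have hF12 : (fun x : Fin 4 → K => (x 0 + c 1 0) * (x 1 + c 1 1) * (x 3 + c 1 3)) = Gram.FF c' 1 2 := by
    funext x
    simp [Gram.FF, Fin.prod_univ_four, hc'def]
  rw [hF02, hF13, hF03, hF12] at hne
  obtain ⟨hx, hy⟩ := hne
  obtain ⟨s, hs0, hs⟩ := Gram.lam_phi φ hφ C 0
  change ∀ j, φ (lam c' (Gram.FF c' 0 j * (PP (c 4) * Gram.FF c' 0 j))) =
    s * lam c' (Gram.FF c' 0 (j + 1) * (PP (c 4) * Gram.FF c' 0 (j + 1))) at hs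
  have hstep : ∀ j, lam c' (Gram.FF c' 0 j * (PP (c 4) * Gram.FF c' 0 j)) = 0 →
      lam c' (Gram.FF c' 0 (j + 1) * (PP (c 4) * Gram.FF c' 0 (j + 1))) = 0 := by
    intro j h
    have h1 := hs j
    rw [h, map_zero] at h1
    rcases mul_eq_zero.mp h1.symm with h2 | h2
    · exact absurd h2 hs0
    · exact h2
  by_cases hA : ∀ j, lam c' (Gram.FF c' 0 j * (PP (c 4) * Gram.FF c' 0 j)) ≠ 0
  · apply Gram.rank_add c c' (fun i => rfl) hc4 (fun j => Gram.FF c' 0 j) (fun j => Gram.FF_mem _ _ _)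
    intro v
    refine ⟨fun l => v l / lam c' (Gram.FF c' 0 l * (PP (c 4) * Gram.FF c' 0 l)), ?_⟩
    intro k
    rw [Finset.sum_eq_single k]
    · exact div_mul_cancel₀ _ (hA k)
    · intro l _ hl
      have h0 : lam c' (Gram.FF c' 0 k * (PP (c 4) * Gram.FF c' 0 l)) = 0 := by
        apply Gram.lam_FF c' (PP (c 4)) 0 k 0 l
        · intro h; exact hl h.2.symm
        · left; rfl
      rw [h0, mul_zero]
    · intro h; exact absurd (Finset.mem_univ k) h
  · push Not at hA
    obtain ⟨j0, hj0⟩ := hA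
    have hall : ∀ j, lam c' (Gram.FF c' 0 j * (PP (c 4) * Gram.FF c' 0 j)) = 0 := by
      have h1 := hstep _ hj0
      have h2 := hstep _ h1
      have h3 := hstep _ h2
      intro j
      rcases Gram.fin4_orbit j0 j with h | h | h | h
      · rw [h]; exact hj0
      · rw [h]; exact h1
      · rw [h]; exact h2
      · rw [h]; exact h3
    have e1 : PP (c 4) * (Gram.FF c' 0 2 * Gram.FF c' 1 3) =
        Gram.FF c' 0 2 * (PP (c 4) * Gram.FF c' 1 3) := by ring
    have e2 : PP (c 4) * (Gram.FF c' 0 2 * Gram.FF c' 1 3) =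
        Gram.FF c' 1 3 * (PP (c 4) * Gram.FF c' 0 2) := by ring
    have e3 : PP (c 4) * (Gram.FF c' 0 3 * Gram.FF c' 1 2) =
        Gram.FF c' 0 3 * (PP (c 4) * Gram.FF c' 1 2) := by ring
    have e4 : PP (c 4) * (Gram.FF c' 0 3 * Gram.FF c' 1 2) =
        Gram.FF c' 1 2 * (PP (c 4) * Gram.FF c' 0 3) := by ring
    have m01 := hx
    rw [e1] at m01
    have q01 : lam c' (Gram.FF c' 1 3 * (PP (c 4) * Gram.FF c' 0 2)) =
        lam c' (Gram.FF c' 0 2 * (PP (c 4) * Gram.FF c' 1 3)) := by rw [← e2, e1]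
    have m23 := hy
    rw [e3] at m23
    have q23 : lam c' (Gram.FF c' 1 2 * (PP (c 4) * Gram.FF c' 0 3)) =
        lam c' (Gram.FF c' 0 3 * (PP (c 4) * Gram.FF c' 1 2)) := by rw [← e4, e3]
    have z : ∀ i j k l : Fin 4, ¬ (i = k ∧ j = l) → (i = k ∨ j = l) →
        lam c' (Gram.FF c' i j * (PP (c 4) * Gram.FF c' k l)) = 0 :=
      fun i j k l h h' => Gram.lam_FF c' (PP (c 4)) i j k l h h'
    apply Gram.rank_add c c' (fun i => rfl) hc4
      (![Gram.FF c' 0 2, Gram.FF c' 1 3, Gram.FF c' 0 3, Gram.FF c' 1 2])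
      (by intro k; fin_cases k <;> exact Gram.FF_mem _ _ _)
    intro v
    set x := lam c' (Gram.FF c' 0 2 * (PP (c 4) * Gram.FF c' 1 3)) with hxd
    set y := lam c' (Gram.FF c' 0 3 * (PP (c 4) * Gram.FF c' 1 2)) with hyd
    set p := lam c' (Gram.FF c' 1 3 * (PP (c 4) * Gram.FF c' 1 3)) with hpd
    set q := lam c' (Gram.FF c' 1 2 * (PP (c 4) * Gram.FF c' 1 2)) with hqd
    refine ⟨![(v 1 - p * (v 0 / x)) / x, v 0 / x, (v 3 - q * (v 2 / y)) / y, v 2 / y], ?_⟩
    have z02 := hall 2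
    have z03 := hall 3
    have za := z 0 2 0 3 (by decide) (by decide)
    have zb := z 0 2 1 2 (by decide) (by decide)
    have zc := z 1 3 0 3 (by decide) (by decide)
    have zd := z 1 3 1 2 (by decide) (by decide)
    have ze := z 0 3 0 2 (by decide) (by decide)
    have zf := z 0 3 1 3 (by decide) (by decide)
    have zg := z 1 2 0 2 (by decide) (by decide)
    have zh := z 1 2 1 3 (by decide) (by decide)
    have y0 := m23
    have x0 := m01
    intro k
    match k with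
    | 0 =>
      rw [Fin.sum_univ_four]
      show (v 1 - p * (v 0 / x)) / x * lam c' (Gram.FF c' 0 2 * (PP (c 4) * Gram.FF c' 0 2)) +
        v 0 / x * lam c' (Gram.FF c' 0 2 * (PP (c 4) * Gram.FF c' 1 3)) +
        (v 3 - q * (v 2 / y)) / y * lam c' (Gram.FF c' 0 2 * (PP (c 4) * Gram.FF c' 0 3)) +
        v 2 / y * lam c' (Gram.FF c' 0 2 * (PP (c 4) * Gram.FF c' 1 2)) = v 0
      rw [z02, za, zb, ← hxd]
      field_simp
      ring
    | 1 =>
      rw [Fin.sum_univ_four]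
      show (v 1 - p * (v 0 / x)) / x * lam c' (Gram.FF c' 1 3 * (PP (c 4) * Gram.FF c' 0 2)) +
        v 0 / x * lam c' (Gram.FF c' 1 3 * (PP (c 4) * Gram.FF c' 1 3)) +
        (v 3 - q * (v 2 / y)) / y * lam c' (Gram.FF c' 1 3 * (PP (c 4) * Gram.FF c' 0 3)) +
        v 2 / y * lam c' (Gram.FF c' 1 3 * (PP (c 4) * Gram.FF c' 1 2)) = v 1
      rw [zc, zd, q01, ← hpd]
      field_simp
      ring
    | 2 =>
      rw [Fin.sum_univ_four]
      show (v 1 - p * (v 0 / x)) / x * lam c' (Gram.FF c' 0 3 * (PP (c 4) * Gram.FF c' 0 2)) +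
        v 0 / x * lam c' (Gram.FF c' 0 3 * (PP (c 4) * Gram.FF c' 1 3)) +
        (v 3 - q * (v 2 / y)) / y * lam c' (Gram.FF c' 0 3 * (PP (c 4) * Gram.FF c' 0 3)) +
        v 2 / y * lam c' (Gram.FF c' 0 3 * (PP (c 4) * Gram.FF c' 1 2)) = v 2
      rw [ze, zf, z03, ← hyd]
      field_simp
      ring
    | 3 =>
      rw [Fin.sum_univ_four]
      show (v 1 - p * (v 0 / x)) / x * lam c' (Gram.FF c' 1 2 * (PP (c 4) * Gram.FF c' 0 2)) +
        v 0 / x * lam c' (Gram.FF c' 1 2 * (PP (c 4) * Gram.FF c' 1 3)) +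
        (v 3 - q * (v 2 / y)) / y * lam c' (Gram.FF c' 1 2 * (PP (c 4) * Gram.FF c' 0 3)) +
        v 2 / y * lam c' (Gram.FF c' 1 2 * (PP (c 4) * Gram.FF c' 1 2)) = v 3
      rw [zg, zh, q23, ← hqd]
      field_simp
      ring

end Pool.Agent.H247R2.PNG
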