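import Pool.Agent.H247R2.PNG.Base

/-!
# Degree one (task F, helper995)
-/

set_option linter.all false

namespace Pool.Agent.H247R2.PNG

open Finset Module

variable {K : Type} [Field K]

private theorem F_PP (c : Fin 4 → K) (a b e f : K) :
    PP c ![a, b, e, f] = (a + c 0) * (b + c 1) * (e + c 2) * (f + c 3) := by
  simp [PP, Fin.prod_univ_four]

private theorem F_indep (c : Fin 5 → Fin 4 → K)
    (hc : ∀ j, Function.Injective fun i => c i j)
    (hm : (c 4 0 - c 2 0) * (c 4 1 - c 3 1) ≠ (c 4 0 - c 3 0) * (c 4 1 - c 2 1))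
    (d : Fin 5 → K) (g : Fin 5 → K) (hg : ∀ x : Fin 4 → K, ∑ i, g i * (PP (c i) x - d i) = 0) :
    ∀ i, g i = 0 := by
  have hne : ∀ (i k : Fin 5) (j : Fin 4), i ≠ k → c i j - c k j ≠ 0 := fun i k j h =>
    sub_ne_zero.2 fun e => h (hc j e)
  set β : K := -(∑ i, g i * d i) with hβ
  have hx : ∀ x : Fin 4 → K, g 0 * PP (c 0) x + g 1 * PP (c 1) x + g 2 * PP (c 2) x +
      g 3 * PP (c 3) x + g 4 * PP (c 4) x + β = 0 := by
    intro x
    rw [← hg x, hβ]
    simp only [Fin.sum_univ_five]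
    ring
  have h1 := hx ![-c 2 0, -c 3 1, -c 0 2, -c 1 3]
  have h2 := hx ![-c 3 0, -c 2 1, -c 0 2, -c 1 3]
  simp only [F_PP] at h1 h2
  have h3 : g 4 * (((c 4 0 - c 2 0) * (c 4 1 - c 3 1) - (c 4 0 - c 3 0) * (c 4 1 - c 2 1)) *
      ((c 4 2 - c 0 2) * (c 4 3 - c 1 3))) = 0 := by
    linear_combination h1 - h2
  have h4 : g 4 = 0 := by
    rcases mul_eq_zero.1 h3 with h | h
    · exact h
    · exact absurd h (mul_ne_zero (sub_ne_zero.2 hm)
        (mul_ne_zero (hne 4 0 2 (by decide)) (hne 4 1 3 (by decide))))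
  have h5 : β = 0 := by
    rw [h4] at h1
    linear_combination h1
  rw [h4, h5] at hx
  have k0 := hx ![-c 1 0, -c 2 1, -c 3 2, -c 3 3]
  have k1 := hx ![-c 0 0, -c 2 1, -c 3 2, -c 3 3]
  have k2 := hx ![-c 0 0, -c 1 1, -c 3 2, -c 3 3]
  have k3 := hx ![-c 0 0, -c 1 1, -c 2 2, -c 2 3]
  simp only [F_PP] at k0 k1 k2 k3
  have l0 : g 0 * ((c 0 0 - c 1 0) * (c 0 1 - c 2 1) * (c 0 2 - c 3 2) * (c 0 3 - c 3 3)) = 0 := by
    linear_combination k0
  have l1 : g 1 * ((c 1 0 - c 0 0) * (c 1 1 - c 2 1) * (c 1 2 - c 3 2) * (c 1 3 - c 3 3)) = 0 := by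
    linear_combination k1
  have l2 : g 2 * ((c 2 0 - c 0 0) * (c 2 1 - c 1 1) * (c 2 2 - c 3 2) * (c 2 3 - c 3 3)) = 0 := by
    linear_combination k2
  have l3 : g 3 * ((c 3 0 - c 0 0) * (c 3 1 - c 1 1) * (c 3 2 - c 2 2) * (c 3 3 - c 2 3)) = 0 := by
    linear_combination k3
  have m0 : g 0 = 0 := by
    rcases mul_eq_zero.1 l0 with h | h
    · exact h
    · exact absurd h (mul_ne_zero (mul_ne_zero (mul_ne_zero (hne 0 1 0 (by decide))
        (hne 0 2 1 (by decide))) (hne 0 3 2 (by decide))) (hne 0 3 3 (by decide)))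
  have m1 : g 1 = 0 := by
    rcases mul_eq_zero.1 l1 with h | h
    · exact h
    · exact absurd h (mul_ne_zero (mul_ne_zero (mul_ne_zero (hne 1 0 0 (by decide))
        (hne 1 2 1 (by decide))) (hne 1 3 2 (by decide))) (hne 1 3 3 (by decide)))
  have m2 : g 2 = 0 := by
    rcases mul_eq_zero.1 l2 with h | h
    · exact h
    · exact absurd h (mul_ne_zero (mul_ne_zero (mul_ne_zero (hne 2 0 0 (by decide))
        (hne 2 1 1 (by decide))) (hne 2 3 2 (by decide))) (hne 2 3 3 (by decide)))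
  have m3 : g 3 = 0 := by
    rcases mul_eq_zero.1 l3 with h | h
    · exact h
    · exact absurd h (mul_ne_zero (mul_ne_zero (mul_ne_zero (hne 3 0 0 (by decide))
        (hne 3 1 1 (by decide))) (hne 3 2 2 (by decide))) (hne 3 2 3 (by decide)))
  intro i
  fin_cases i
  · exact m0
  · exact m1
  · exact m2
  · exact m3
  · exact h4

theorem res_one (φ : K →+* K) (c : Fin 5 → Fin 4 → K)
    (hc : ∀ j, Function.Injective fun i => c i j)
    (hm : (c 4 0 - c 2 0) * (c 4 1 - c 3 1) ≠ (c 4 0 - c 3 0) * (c 4 1 - c 2 1))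
    (d : Fin 5 → K) (S : Finset K) (hS : ∀ W ∈ S, ∀ i, PP (c i) (pt φ W) = d i) :
    finrank K ((Rk K 1).map (res φ S)) ≤ 11 := by
  set T : Rk K 1 →ₗ[K] (S → K) := (res φ S).domRestrict (Rk K 1) with hT
  have hrange : LinearMap.range T = (Rk K 1).map (res φ S) := by
    rw [hT, LinearMap.range_domRestrict]
  have hdim := LinearMap.finrank_range_add_finrank_ker T
  rw [finrank_R1, hrange] at hdim
  -- the five functions in the kernel
  have hmem : ∀ i, (PP (c i) - fun _ => d i) ∈ Rk K 1 := fun i =>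
    Submodule.sub_mem _ (PP_mem _) (const_mem_Rk _ _)
  set v : Fin 5 → Rk K 1 := fun i => ⟨PP (c i) - fun _ => d i, hmem i⟩ with hv
  set G : (Fin 5 → K) →ₗ[K] Rk K 1 := Fintype.linearCombination K v with hG
  have hGx : ∀ (g : Fin 5 → K) (x : Fin 4 → K),
      ((G g : Rk K 1) : (Fin 4 → K) → K) x = ∑ i, g i * (PP (c i) x - d i) := by
    intro g x
    rw [hG, Fintype.linearCombination_apply]
    simp [hv, Finset.sum_apply]
  have hinj : Function.Injective G := by
    rw [← LinearMap.ker_eq_bot, LinearMap.ker_eq_bot']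
    intro g hg
    funext i
    refine F_indep c hc hm d g (fun x => ?_) i
    rw [← hGx, hg]
    rfl
  have hker : LinearMap.range G ≤ LinearMap.ker T := by
    rintro _ ⟨g, rfl⟩
    rw [LinearMap.mem_ker]
    funext W
    rw [hT, LinearMap.domRestrict_apply, res_apply, hGx]
    refine Finset.sum_eq_zero fun i _ => ?_
    rw [hS W W.2 i, sub_self, mul_zero]
  have h5 : 5 ≤ finrank K (LinearMap.ker T) := by
    have h6 := LinearMap.finrank_range_of_inj hinj
    have h7 := Submodule.finrank_mono hker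
    rw [h6] at h7
    simpa using h7
  omega

end Pool.Agent.H247R2.PNG
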