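import Pool.Agent.H247R2.PNG.Base

/-!
# The functional `lam` (task C, helper995)
-/

namespace Pool.Agent.H247R2.PNG

open Finset Module

variable {K : Type} [Field K]

private theorem C_lam_apply (c : Fin 4 → Fin 4 → K) (f : (Fin 4 → K) → K) :
    lam c f = ∑ σ : Equiv.Perm (Fin 4), ((Equiv.Perm.sign σ : ℤ) : K) *
      ((∏ j, ww c (σ j) j)⁻¹ * f (zz c σ)) := by
  simp [lam, LinearMap.sum_apply]

private theorem C_lam_prod (c : Fin 4 → Fin 4 → K) (g : Fin 4 → K → K) :
    lam c (fun x => ∏ j, g j (x j)) =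
      (Matrix.of fun i j => g j (-c i j) / ww c i j).det := by
  rw [C_lam_apply, Matrix.det_apply']
  refine Finset.sum_congr rfl fun σ _ => ?_
  congr 1
  simp only [Matrix.of_apply, zz, div_eq_mul_inv, Finset.prod_mul_distrib, Finset.prod_inv_distrib]
  ring

private theorem C_sum_zero (v : Fin 4 → K) (hv : Function.Injective v) (g : Polynomial K)
    (hg : g.natDegree ≤ 2) : ∑ i, g.eval (v i) / ∏ l ∈ univ.erase i, (v i - v l) = 0 := by
  have h := Lagrange.coeff_eq_sum (s := (univ : Finset (Fin 4))) (v := v) (hv.injOn) (P := g)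
    (by
      refine lt_of_le_of_lt (Polynomial.degree_le_natDegree) ?_
      simp only [card_univ, Fintype.card_fin]
      exact_mod_cast lt_of_le_of_lt hg (by norm_num))
  rw [← h]
  exact Polynomial.coeff_eq_zero_of_natDegree_lt (by simp; omega)

theorem lam_R2 (c : Fin 4 → Fin 4 → K) (hc : ∀ j, Function.Injective fun i => c i j)
    {f : (Fin 4 → K) → K} (hf : f ∈ Rk K 2) : lam c f = 0 := by
  refine eq_zero_of_prod (lam c) ?_ hf
  intro g hg
  rw [C_lam_prod c (fun j t => (g j).eval t)]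
  apply (Matrix.exists_vecMul_eq_zero_iff).1
  refine ⟨fun _ => 1, fun h => one_ne_zero (congrFun h 0), ?_⟩
  funext j
  simp only [Matrix.vecMul, dotProduct, Matrix.of_apply, one_mul, Pi.zero_apply]
  have hv : Function.Injective fun i => -c i j := fun a b hab => hc j (neg_injective hab)
  have := C_sum_zero (fun i => -c i j) hv (g j) (hg j)
  rw [← this]
  refine Finset.sum_congr rfl fun i _ => ?_
  congr 1
  unfold ww
  refine Finset.prod_congr rfl fun l _ => ?_
  ring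

theorem lam_mulP (c : Fin 4 → Fin 4 → K) (i : Fin 4) (f : (Fin 4 → K) → K) :
    lam c (PP (c i) * f) = 0 := by
  rw [C_lam_apply]
  refine Finset.sum_eq_zero fun σ _ => ?_
  have : PP (c i) (zz c σ) = 0 := by
    unfold PP zz
    refine Finset.prod_eq_zero (Finset.mem_univ (σ.symm i)) ?_
    simp
  simp [this]

private theorem C_det (M : Matrix (Fin 4) (Fin 4) K) (h00 : M 0 0 = 0) (h10 : M 1 0 = 0)
    (h01 : M 0 1 = 0) (h11 : M 1 1 = 0) :
    M.det = (M 0 2 * M 1 3 - M 0 3 * M 1 2) * (M 2 0 * M 3 1 - M 3 0 * M 2 1) := by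
  rw [Matrix.det_succ_row_zero]
  simp [Fin.sum_univ_succ, Matrix.det_succ_row_zero, Fin.succAbove, h00, h10, h01, h11]
  ring

private theorem C_ww0 (c : Fin 4 → Fin 4 → K) (j : Fin 4) :
    ww c 0 j = (c 1 j - c 0 j) * (c 2 j - c 0 j) * (c 3 j - c 0 j) := by
  have : (univ : Finset (Fin 4)).erase 0 = {1, 2, 3} := by decide
  rw [ww, this, Finset.prod_insert (by decide), Finset.prod_insert (by decide),
    Finset.prod_singleton]
  ring

private theorem C_ww1 (c : Fin 4 → Fin 4 → K) (j : Fin 4) :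
    ww c 1 j = (c 0 j - c 1 j) * (c 2 j - c 1 j) * (c 3 j - c 1 j) := by
  have : (univ : Finset (Fin 4)).erase 1 = {0, 2, 3} := by decide
  rw [ww, this, Finset.prod_insert (by decide), Finset.prod_insert (by decide),
    Finset.prod_singleton]
  ring

private theorem C_ww2 (c : Fin 4 → Fin 4 → K) (j : Fin 4) :
    ww c 2 j = (c 0 j - c 2 j) * (c 1 j - c 2 j) * (c 3 j - c 2 j) := by
  have : (univ : Finset (Fin 4)).erase 2 = {0, 1, 3} := by decide
  rw [ww, this, Finset.prod_insert (by decide), Finset.prod_insert (by decide),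
    Finset.prod_singleton]
  ring

private theorem C_ww3 (c : Fin 4 → Fin 4 → K) (j : Fin 4) :
    ww c 3 j = (c 0 j - c 3 j) * (c 1 j - c 3 j) * (c 2 j - c 3 j) := by
  have : (univ : Finset (Fin 4)).erase 3 = {0, 1, 2} := by decide
  rw [ww, this, Finset.prod_insert (by decide), Finset.prod_insert (by decide),
    Finset.prod_singleton]
  ring

/-- the determinant of the block of the rows `2, 3` and the columns `0, 1` -/
private theorem C_block (c : Fin 5 → Fin 4 → K) (hc : ∀ j, Function.Injective fun i => c i j)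
    (hm : (c 4 0 - c 2 0) * (c 4 1 - c 3 1) ≠ (c 4 0 - c 3 0) * (c 4 1 - c 2 1)) :
    ((c 4 0 - c 2 0) * (c 0 0 - c 2 0) * (c 1 0 - c 2 0)) /
        ww (fun i : Fin 4 => c i.castSucc) 2 0 *
      (((c 4 1 - c 3 1) * (c 0 1 - c 3 1) * (c 1 1 - c 3 1)) /
        ww (fun i : Fin 4 => c i.castSucc) 3 1) -
    ((c 4 0 - c 3 0) * (c 0 0 - c 3 0) * (c 1 0 - c 3 0)) /
        ww (fun i : Fin 4 => c i.castSucc) 3 0 *
      (((c 4 1 - c 2 1) * (c 0 1 - c 2 1) * (c 1 1 - c 2 1)) /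
        ww (fun i : Fin 4 => c i.castSucc) 2 1) ≠ 0 := by
  have hne : ∀ (i k : Fin 5) (j : Fin 4), i ≠ k → c i j - c k j ≠ 0 := fun i k j h =>
    sub_ne_zero.2 fun e => h (hc j e)
  have e0 : (0 : Fin 4).castSucc = (0 : Fin 5) := rfl
  have e1 : (1 : Fin 4).castSucc = (1 : Fin 5) := rfl
  have e2 : (2 : Fin 4).castSucc = (2 : Fin 5) := rfl
  have e3 : (3 : Fin 4).castSucc = (3 : Fin 5) := rfl
  simp only [C_ww2, C_ww3, e0, e1, e2, e3]
  have a1 := hne 0 2 0 (by decide)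
  have a2 := hne 1 2 0 (by decide)
  have a3 := hne 3 2 0 (by decide)
  have a4 := hne 0 3 0 (by decide)
  have a5 := hne 1 3 0 (by decide)
  have a6 := hne 2 3 0 (by decide)
  have b1 := hne 0 2 1 (by decide)
  have b2 := hne 1 2 1 (by decide)
  have b3 := hne 3 2 1 (by decide)
  have b4 := hne 0 3 1 (by decide)
  have b5 := hne 1 3 1 (by decide)
  have b6 := hne 2 3 1 (by decide)
  have h1 : (c 4 0 - c 2 0) * (c 0 0 - c 2 0) * (c 1 0 - c 2 0) /
      ((c 0 0 - c 2 0) * (c 1 0 - c 2 0) * (c 3 0 - c 2 0)) = (c 4 0 - c 2 0) / (c 3 0 - c 2 0) := by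
    field_simp
  have h2 : (c 4 1 - c 3 1) * (c 0 1 - c 3 1) * (c 1 1 - c 3 1) /
      ((c 0 1 - c 3 1) * (c 1 1 - c 3 1) * (c 2 1 - c 3 1)) = (c 4 1 - c 3 1) / (c 2 1 - c 3 1) := by
    field_simp
  have h3 : (c 4 0 - c 3 0) * (c 0 0 - c 3 0) * (c 1 0 - c 3 0) /
      ((c 0 0 - c 3 0) * (c 1 0 - c 3 0) * (c 2 0 - c 3 0)) = (c 4 0 - c 3 0) / (c 2 0 - c 3 0) := by
    field_simp
  have h4 : (c 4 1 - c 2 1) * (c 0 1 - c 2 1) * (c 1 1 - c 2 1) /
      ((c 0 1 - c 2 1) * (c 1 1 - c 2 1) * (c 3 1 - c 2 1)) = (c 4 1 - c 2 1) / (c 3 1 - c 2 1) := by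
    field_simp
  rw [h1, h2, h3, h4]
  have h5 : (c 4 0 - c 2 0) / (c 3 0 - c 2 0) * ((c 4 1 - c 3 1) / (c 2 1 - c 3 1)) -
      (c 4 0 - c 3 0) / (c 2 0 - c 3 0) * ((c 4 1 - c 2 1) / (c 3 1 - c 2 1)) =
      ((c 4 0 - c 2 0) * (c 4 1 - c 3 1) - (c 4 0 - c 3 0) * (c 4 1 - c 2 1)) /
        ((c 3 0 - c 2 0) * (c 2 1 - c 3 1)) := by
    have q1 : c 2 0 - c 3 0 = -(c 3 0 - c 2 0) := by ring
    have q2 : c 3 1 - c 2 1 = -(c 2 1 - c 3 1) := by ring
    rw [q1, q2, div_neg, div_neg, div_mul_div_comm, neg_mul_neg, div_mul_div_comm, sub_div]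
  rw [h5]
  exact div_ne_zero (sub_ne_zero.2 hm) (mul_ne_zero a3 b6)

theorem lam_ne (c : Fin 5 → Fin 4 → K) (hc : ∀ j, Function.Injective fun i => c i j)
    (hm : (c 4 0 - c 2 0) * (c 4 1 - c 3 1) ≠ (c 4 0 - c 3 0) * (c 4 1 - c 2 1)) :
    lam (fun i : Fin 4 => c i.castSucc) (PP (c 4) *
      ((fun x => (x 0 + c 0 0) * (x 1 + c 0 1) * (x 3 + c 0 3)) *
        (fun x => (x 0 + c 1 0) * (x 1 + c 1 1) * (x 2 + c 1 2)))) ≠ 0 ∧
    lam (fun i : Fin 4 => c i.castSucc) (PP (c 4) *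
      ((fun x => (x 0 + c 0 0) * (x 1 + c 0 1) * (x 2 + c 0 2)) *
        (fun x => (x 0 + c 1 0) * (x 1 + c 1 1) * (x 3 + c 1 3)))) ≠ 0 := by
  have hne : ∀ (i k : Fin 5) (j : Fin 4), i ≠ k → c i j - c k j ≠ 0 := fun i k j h =>
    sub_ne_zero.2 fun e => h (hc j e)
  have e0 : (0 : Fin 4).castSucc = (0 : Fin 5) := rfl
  have e1 : (1 : Fin 4).castSucc = (1 : Fin 5) := rfl
  have e2 : (2 : Fin 4).castSucc = (2 : Fin 5) := rfl
  have e3 : (3 : Fin 4).castSucc = (3 : Fin 5) := rfl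
  have hww0 : ∀ j, ww (fun i : Fin 4 => c i.castSucc) 0 j ≠ 0 := by
    intro j
    rw [C_ww0]
    simp only [e0, e1, e2, e3]
    exact mul_ne_zero (mul_ne_zero (hne 1 0 j (by decide)) (hne 2 0 j (by decide)))
      (hne 3 0 j (by decide))
  have hww1 : ∀ j, ww (fun i : Fin 4 => c i.castSucc) 1 j ≠ 0 := by
    intro j
    rw [C_ww1]
    simp only [e0, e1, e2, e3]
    exact mul_ne_zero (mul_ne_zero (hne 0 1 j (by decide)) (hne 2 1 j (by decide)))
      (hne 3 1 j (by decide))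
  have hblock := C_block c hc hm
  constructor
  · have hf : (PP (c 4) * ((fun x => (x 0 + c 0 0) * (x 1 + c 0 1) * (x 3 + c 0 3)) *
        (fun x => (x 0 + c 1 0) * (x 1 + c 1 1) * (x 2 + c 1 2))) : (Fin 4 → K) → K) =
        fun x => ∏ j, (![fun t => (t + c 4 0) * (t + c 0 0) * (t + c 1 0),
          fun t => (t + c 4 1) * (t + c 0 1) * (t + c 1 1),
          fun t => (t + c 4 2) * (t + c 1 2),
          fun t => (t + c 4 3) * (t + c 0 3)] : Fin 4 → K → K) j (x j) := by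
      funext x
      simp only [Pi.mul_apply, PP, Fin.prod_univ_four, Matrix.cons_val_zero, Matrix.cons_val_one,
        Matrix.cons_val]
      ring
    rw [hf, C_lam_prod, C_det]
    · apply mul_ne_zero
      · simp only [Matrix.of_apply, Matrix.cons_val, e0, e1]
        have z1 : (-c 0 3 + c 4 3) * (-c 0 3 + c 0 3) /
          ww (fun i : Fin 4 => c i.castSucc) 0 3 = 0 := by simp
        rw [z1, zero_mul, sub_zero]
        refine mul_ne_zero (div_ne_zero (mul_ne_zero ?_ ?_) (hww0 2))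
          (div_ne_zero (mul_ne_zero ?_ ?_) (hww1 3))
        · intro h; exact hne 4 0 2 (by decide) (by linear_combination h)
        · intro h; exact hne 1 0 2 (by decide) (by linear_combination h)
        · intro h; exact hne 4 1 3 (by decide) (by linear_combination h)
        · intro h; exact hne 0 1 3 (by decide) (by linear_combination h)
      · simp only [Matrix.of_apply, Matrix.cons_val_zero, Matrix.cons_val_one, e2, e3]
        have g1 : (-c 2 0 + c 4 0) * (-c 2 0 + c 0 0) * (-c 2 0 + c 1 0) =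
          (c 4 0 - c 2 0) * (c 0 0 - c 2 0) * (c 1 0 - c 2 0) := by ring
        have g2 : (-c 3 1 + c 4 1) * (-c 3 1 + c 0 1) * (-c 3 1 + c 1 1) =
          (c 4 1 - c 3 1) * (c 0 1 - c 3 1) * (c 1 1 - c 3 1) := by ring
        have g3 : (-c 3 0 + c 4 0) * (-c 3 0 + c 0 0) * (-c 3 0 + c 1 0) =
          (c 4 0 - c 3 0) * (c 0 0 - c 3 0) * (c 1 0 - c 3 0) := by ring
        have g4 : (-c 2 1 + c 4 1) * (-c 2 1 + c 0 1) * (-c 2 1 + c 1 1) =
          (c 4 1 - c 2 1) * (c 0 1 - c 2 1) * (c 1 1 - c 2 1) := by ring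
        rw [g1, g2, g3, g4]
        exact hblock
    all_goals simp [e0, e1]
  · have hf : (PP (c 4) * ((fun x => (x 0 + c 0 0) * (x 1 + c 0 1) * (x 2 + c 0 2)) *
        (fun x => (x 0 + c 1 0) * (x 1 + c 1 1) * (x 3 + c 1 3))) : (Fin 4 → K) → K) =
        fun x => ∏ j, (![fun t => (t + c 4 0) * (t + c 0 0) * (t + c 1 0),
          fun t => (t + c 4 1) * (t + c 0 1) * (t + c 1 1),
          fun t => (t + c 4 2) * (t + c 0 2),
          fun t => (t + c 4 3) * (t + c 1 3)] : Fin 4 → K → K) j (x j) := by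
      funext x
      simp only [Pi.mul_apply, PP, Fin.prod_univ_four, Matrix.cons_val_zero, Matrix.cons_val_one,
        Matrix.cons_val]
      ring
    rw [hf, C_lam_prod, C_det]
    · apply mul_ne_zero
      · simp only [Matrix.of_apply, Matrix.cons_val, e0, e1]
        have z1 : (-c 0 2 + c 4 2) * (-c 0 2 + c 0 2) /
          ww (fun i : Fin 4 => c i.castSucc) 0 2 = 0 := by simp
        rw [z1, zero_mul, zero_sub]
        refine neg_ne_zero.2 (mul_ne_zero (div_ne_zero (mul_ne_zero ?_ ?_) (hww0 3))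
          (div_ne_zero (mul_ne_zero ?_ ?_) (hww1 2)))
        · intro h; exact hne 4 0 3 (by decide) (by linear_combination h)
        · intro h; exact hne 1 0 3 (by decide) (by linear_combination h)
        · intro h; exact hne 4 1 2 (by decide) (by linear_combination h)
        · intro h; exact hne 0 1 2 (by decide) (by linear_combination h)
      · simp only [Matrix.of_apply, Matrix.cons_val_zero, Matrix.cons_val_one, e2, e3]
        have g1 : (-c 2 0 + c 4 0) * (-c 2 0 + c 0 0) * (-c 2 0 + c 1 0) =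
          (c 4 0 - c 2 0) * (c 0 0 - c 2 0) * (c 1 0 - c 2 0) := by ring
        have g2 : (-c 3 1 + c 4 1) * (-c 3 1 + c 0 1) * (-c 3 1 + c 1 1) =
          (c 4 1 - c 3 1) * (c 0 1 - c 3 1) * (c 1 1 - c 3 1) := by ring
        have g3 : (-c 3 0 + c 4 0) * (-c 3 0 + c 0 0) * (-c 3 0 + c 1 0) =
          (c 4 0 - c 3 0) * (c 0 0 - c 3 0) * (c 1 0 - c 3 0) := by ring
        have g4 : (-c 2 1 + c 4 1) * (-c 2 1 + c 0 1) * (-c 2 1 + c 1 1) =
          (c 4 1 - c 2 1) * (c 0 1 - c 2 1) * (c 1 1 - c 2 1) := by ring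
        rw [g1, g2, g3, g4]
        exact hblock
    all_goals simp [e0, e1]

end Pool.Agent.H247R2.PNG
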