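import Pool.Agent.H247R2.PNG.Base
import Pool.Agent.H247R2.PNG.Lam

/-!
# Degree three
-/

namespace Pool.Agent.H247R2.PNG

open Finset Module

variable {K : Type} [Field K]

namespace Three

/-- product of linear factors over a set of nodes in column `j` -/
noncomputable def hp (c : Fin 4 → Fin 4 → K) (s : Finset (Fin 4)) (j : Fin 4) : Polynomial K :=
  ∏ l ∈ s, (Polynomial.X + Polynomial.C (c l j))

theorem hp_eval (c : Fin 4 → Fin 4 → K) (s : Finset (Fin 4)) (j : Fin 4) (x : K) :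
    (hp c s j).eval x = ∏ l ∈ s, (x + c l j) := by
  simp [hp, Polynomial.eval_prod]

theorem hp_deg (c : Fin 4 → Fin 4 → K) (s : Finset (Fin 4)) (j : Fin 4) :
    (hp c s j).natDegree ≤ s.card := by
  refine (Polynomial.natDegree_prod_le _ _).trans ?_
  refine (Finset.sum_le_sum (g := fun _ => 1) fun l _ => ?_).trans (by simp)
  exact (Polynomial.natDegree_X_add_C _).le

/-- the Lagrange function of the grid point `τ` -/
noncomputable def LL (c : Fin 4 → Fin 4 → K) (τ : Fin 4 → Fin 4) : (Fin 4 → K) → K :=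
  fun x => ∏ j, (hp c (univ.erase (τ j)) j).eval (x j)

/-- the weight of a grid point -/
noncomputable def wt (c : Fin 4 → Fin 4 → K) (τ : Fin 4 → Fin 4) : K := ∏ j, ww c (τ j) j

variable {c : Fin 4 → Fin 4 → K}

theorem ww_ne (hc : ∀ j, Function.Injective fun i => c i j) (i j : Fin 4) : ww c i j ≠ 0 :=
  Finset.prod_ne_zero_iff.2 fun _ hl => sub_ne_zero.2 fun h => (Finset.ne_of_mem_erase hl) (hc j h)

theorem wt_ne (hc : ∀ j, Function.Injective fun i => c i j) (τ : Fin 4 → Fin 4) : wt c τ ≠ 0 :=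
  Finset.prod_ne_zero_iff.2 fun _ _ => ww_ne hc _ _

theorem lagr1 (hc : ∀ j, Function.Injective fun i => c i j) (j : Fin 4) (g : Polynomial K)
    (hg : g.natDegree ≤ 3) :
    g = ∑ i, Polynomial.C (g.eval (-c i j) / ww c i j) * hp c (univ.erase i) j := by
  refine Polynomial.eq_of_degrees_lt_of_eval_index_eq (s := (univ : Finset (Fin 4)))
    (v := fun i => -c i j) ?_ ?_ ?_ ?_
  · intro a _ b _ hab
    exact hc j (neg_injective hab)
  · refine lt_of_le_of_lt Polynomial.degree_le_natDegree ?_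
    rw [Finset.card_univ, Fintype.card_fin]
    exact_mod_cast Nat.lt_succ_of_le hg
  · refine lt_of_le_of_lt (Polynomial.degree_sum_le _ _) ?_
    rw [Finset.sup_lt_iff (by exact WithBot.bot_lt_coe _)]
    intro i _
    refine lt_of_le_of_lt Polynomial.degree_le_natDegree ?_
    have := (Polynomial.natDegree_C_mul_le (g.eval (-c i j) / ww c i j)
      (hp c (univ.erase i) j)).trans (hp_deg c (univ.erase i) j)
    rw [Finset.card_erase_of_mem (Finset.mem_univ i), Finset.card_univ, Fintype.card_fin] at this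
    rw [Finset.card_univ, Fintype.card_fin]
    exact_mod_cast Nat.lt_succ_of_le this
  · intro i _
    rw [Polynomial.eval_finsetSum, Finset.sum_eq_single i]
    · rw [Polynomial.eval_mul, Polynomial.eval_C, hp_eval]
      have h1 : ∏ l ∈ univ.erase i, (-c i j + c l j) = ww c i j := by
        unfold ww
        refine Finset.prod_congr rfl fun l _ => by ring
      rw [h1, div_mul_cancel₀ _ (ww_ne hc i j)]
    · intro i' _ hi'
      rw [Polynomial.eval_mul, hp_eval, Finset.prod_eq_zero (i := i)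
        (Finset.mem_erase.2 ⟨hi'.symm, Finset.mem_univ _⟩) (by ring), mul_zero]
    · intro h
      exact absurd (Finset.mem_univ i) h

theorem lagrange (hc : ∀ j, Function.Injective fun i => c i j) {f : (Fin 4 → K) → K}
    (hf : f ∈ Rk K 3) : f = ∑ τ : Fin 4 → Fin 4, ((wt c τ)⁻¹ * f (zz c τ)) • LL c τ := by
  let T : ((Fin 4 → K) → K) →ₗ[K] ((Fin 4 → K) → K) :=
    LinearMap.id - ∑ τ : Fin 4 → Fin 4, (wt c τ)⁻¹ •
      ((LinearMap.proj (zz c τ) : ((Fin 4 → K) → K) →ₗ[K] K).smulRight (LL c τ))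
  have hT : ∀ f, T f = f - ∑ τ : Fin 4 → Fin 4, ((wt c τ)⁻¹ * f (zz c τ)) • LL c τ := by
    intro f
    simp only [T, LinearMap.sub_apply, LinearMap.id_apply, LinearMap.sum_apply,
      LinearMap.smul_apply, LinearMap.smulRight_apply, LinearMap.proj_apply, smul_smul]
  have h0 : T f = 0 := by
    refine eq_zero_of_prod T (fun g hg => ?_) hf
    rw [hT, sub_eq_zero]
    funext x
    rw [Finset.sum_apply]
    have h1 : ∀ j, (g j).eval (x j) = ∑ i, ((g j).eval (-c i j) / ww c i j) *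
        (hp c (univ.erase i) j).eval (x j) := by
      intro j
      conv_lhs => rw [lagr1 hc j (g j) (hg j)]
      rw [Polynomial.eval_finsetSum]
      simp only [Polynomial.eval_mul, Polynomial.eval_C]
    rw [Finset.prod_congr rfl fun j _ => h1 j, Finset.prod_univ_sum]
    simp only [Fintype.piFinset_univ, Pi.smul_apply, smul_eq_mul, Finset.prod_mul_distrib]
    refine Finset.sum_congr rfl fun τ _ => ?_
    unfold LL wt
    congr 1
    rw [Finset.prod_div_distrib, div_eq_inv_mul]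
    rfl
  rw [hT, sub_eq_zero] at h0
  exact h0

section

variable {V : Type*} [AddCommGroup V] [Module K V] {r : ((Fin 4 → K) → K) →ₗ[K] V}

theorem card_two {a b : Fin 4} (h : b ≠ a) : ((univ.erase a).erase b).card = 2 := by
  rw [Finset.card_erase_of_mem (Finset.mem_erase.2 ⟨h, Finset.mem_univ _⟩),
    Finset.card_erase_of_mem (Finset.mem_univ _), Finset.card_univ, Fintype.card_fin]

theorem LL_zero (hP : ∀ i, ∀ g ∈ Rk K 2, r (PP (c i) * g) = 0) {τ : Fin 4 → Fin 4}
    (hτ : ¬ Function.Surjective τ) : r (LL c τ) = 0 := by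
  unfold Function.Surjective at hτ
  push Not at hτ
  obtain ⟨i, hi⟩ := hτ
  have h1 : LL c τ = PP (c i) *
      (fun x : Fin 4 → K => ∏ j, (hp c ((univ.erase (τ j)).erase i) j).eval (x j)) := by
    funext x
    rw [Pi.mul_apply]
    unfold LL PP
    rw [← Finset.prod_mul_distrib]
    refine Finset.prod_congr rfl fun j _ => ?_
    rw [hp_eval, hp_eval]
    exact (Finset.mul_prod_erase (univ.erase (τ j)) (fun l => x j + c l j)
      (Finset.mem_erase.2 ⟨(hi j).symm, Finset.mem_univ _⟩)).symm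
  rw [h1]
  refine hP i _ (prod_mem_Rk _ fun j => ?_)
  refine (hp_deg _ _ _).trans (card_two (hi j).symm).le

theorem r_eq (hc : ∀ j, Function.Injective fun i => c i j)
    (hP : ∀ i, ∀ g ∈ Rk K 2, r (PP (c i) * g) = 0) {f : (Fin 4 → K) → K} (hf : f ∈ Rk K 3) :
    r f = ∑ σ : Equiv.Perm (Fin 4), ((wt c σ)⁻¹ * f (zz c σ)) • r (LL c σ) := by
  conv_lhs => rw [lagrange hc hf]
  rw [map_sum]
  simp only [map_smul]
  symm
  refine Fintype.sum_of_injective (fun σ : Equiv.Perm (Fin 4) => (σ : Fin 4 → Fin 4))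
    (fun σ τ h => Equiv.coe_fn_injective h) _ _ (fun τ hτ => ?_) (fun σ => rfl)
  rw [LL_zero hP, smul_zero]
  intro hs
  exact hτ ⟨Equiv.ofBijective τ ⟨Finite.injective_iff_surjective.2 hs, hs⟩, rfl⟩

/-- the partner value -/
def oth (σ : Equiv.Perm (Fin 4)) (a b j : Fin 4) : Fin 4 := if j = a then σ b else σ a

theorem oth_ne {σ : Equiv.Perm (Fin 4)} {a b : Fin 4} (hab : a ≠ b) (j : Fin 4) :
    oth σ a b j ≠ σ j := by
  unfold oth
  split_ifs with h
  · rw [h]; exact fun h' => hab (σ.injective h').symm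
  · exact fun h' => h (σ.injective h').symm

/-- the test function -/
noncomputable def ft (c : Fin 4 → Fin 4 → K) (σ : Equiv.Perm (Fin 4)) (a b : Fin 4) :
    (Fin 4 → K) → K :=
  fun x => ∏ j, (hp c ((univ.erase (σ j)).erase (oth σ a b j)) j).eval (x j)

theorem ft_mem {σ : Equiv.Perm (Fin 4)} {a b : Fin 4} (hab : a ≠ b) : ft c σ a b ∈ Rk K 2 :=
  prod_mem_Rk _ fun j => (hp_deg _ _ _).trans (card_two (oth_ne hab j)).le

theorem ft_zero {σ : Equiv.Perm (Fin 4)} {a b : Fin 4} (hab : a ≠ b) (σ' : Equiv.Perm (Fin 4))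
    (h1 : σ' ≠ σ) (h2 : σ' ≠ σ * Equiv.swap a b) : ft c σ a b (zz c σ') = 0 := by
  by_contra h0
  have h3 : ∀ j, σ' j = σ j ∨ σ' j = oth σ a b j := by
    intro j
    by_contra hj
    push Not at hj
    apply h0
    unfold ft
    refine Finset.prod_eq_zero (Finset.mem_univ j) ?_
    rw [hp_eval]
    refine Finset.prod_eq_zero (i := σ' j) (Finset.mem_erase.2 ⟨hj.2,
      Finset.mem_erase.2 ⟨hj.1, Finset.mem_univ _⟩⟩) ?_
    unfold zz
    ring
  have ha : σ' a = σ a ∨ σ' a = σ b := by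
    have := h3 a
    rwa [oth, if_pos rfl] at this
  have hb : σ' b = σ b ∨ σ' b = σ a := by
    have := h3 b
    rwa [oth, if_neg (Ne.symm hab)] at this
  have hj : ∀ j, j ≠ a → j ≠ b → σ' j = σ j := by
    intro j hja hjb
    rcases h3 j with h | h
    · exact h
    · rw [oth, if_neg hja] at h
      exfalso
      rcases ha with h4 | h4
      · exact hja (σ'.injective (h.trans h4.symm))
      · rcases hb with h5 | h5
        · exact hab (σ'.injective (h4.trans h5.symm))
        · exact hjb (σ'.injective (h.trans h5.symm))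
  rcases ha with h4 | h4
  · have h5 : σ' b = σ b := by
      rcases hb with h5 | h5
      · exact h5
      · exact absurd (σ'.injective (h4.trans h5.symm)) hab
    apply h1
    ext j
    by_cases hja : j = a
    · rw [hja, h4]
    · by_cases hjb : j = b
      · rw [hjb, h5]
      · rw [hj j hja hjb]
  · have h5 : σ' b = σ a := by
      rcases hb with h5 | h5
      · exact absurd (σ'.injective (h4.trans h5.symm)) hab
      · exact h5
    apply h2
    ext j
    rw [Equiv.Perm.mul_apply]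
    by_cases hja : j = a
    · rw [hja, h4, Equiv.swap_apply_left]
    · by_cases hjb : j = b
      · rw [hjb, h5, Equiv.swap_apply_right]
      · rw [hj j hja hjb, Equiv.swap_apply_of_ne_of_ne hja hjb]

/-- the difference of the two nodes of column `j` -/
def dlt (c : Fin 4 → Fin 4 → K) (σ : Equiv.Perm (Fin 4)) (a b j : Fin 4) : K :=
  c (oth σ a b j) j - c (σ j) j

theorem dlt_ne (hc : ∀ j, Function.Injective fun i => c i j) {σ : Equiv.Perm (Fin 4)}
    {a b : Fin 4} (hab : a ≠ b) (j : Fin 4) : dlt c σ a b j ≠ 0 :=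
  sub_ne_zero.2 fun h => oth_ne hab j (hc j h)

theorem ft_self {σ : Equiv.Perm (Fin 4)} {a b : Fin 4} (hab : a ≠ b) :
    ft c σ a b (zz c σ) * ∏ j, dlt c σ a b j = wt c σ := by
  unfold ft wt
  rw [← Finset.prod_mul_distrib]
  refine Finset.prod_congr rfl fun j _ => ?_
  rw [hp_eval]
  unfold ww dlt zz
  rw [← Finset.mul_prod_erase (univ.erase (σ j)) (fun l => c l j - c (σ j) j)
    (Finset.mem_erase.2 ⟨oth_ne hab j, Finset.mem_univ _⟩), mul_comm]
  congr 1
  refine Finset.prod_congr rfl fun l _ => by ring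

theorem sgn_prod {a b : Fin 4} (hab : a ≠ b) :
    ∏ j : Fin 4, (if j = a ∨ j = b then (-1 : K) else 1) = 1 := by
  have h : ∏ j : Fin 4, (if j = a ∨ j = b then (-1 : K) else 1) = ∏ j ∈ ({a, b} : Finset (Fin 4)),
      (-1 : K) := by
    rw [Finset.prod_ite, Finset.prod_const_one, mul_one]
    congr 1
    ext j
    simp
  rw [h, Finset.prod_pair hab]
  norm_num

theorem ft_swap {σ : Equiv.Perm (Fin 4)} {a b : Fin 4} (hab : a ≠ b) :
    ft c σ a b (zz c (σ * Equiv.swap a b : Equiv.Perm (Fin 4))) * ∏ j, dlt c σ a b j =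
      wt c (σ * Equiv.swap a b : Equiv.Perm (Fin 4)) := by
  have h0 : ∏ j, dlt c σ a b j = ∏ j, (dlt c σ a b j * (if j = a ∨ j = b then (-1 : K) else 1)) := by
    rw [Finset.prod_mul_distrib, sgn_prod hab, mul_one]
  rw [h0]
  unfold ft wt
  rw [← Finset.prod_mul_distrib]
  refine Finset.prod_congr rfl fun j _ => ?_
  rw [hp_eval]
  unfold ww dlt zz
  by_cases hj : j = a ∨ j = b
  · have hs : (σ * Equiv.swap a b) j = oth σ a b j := by
      rw [Equiv.Perm.mul_apply]
      unfold oth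
      rcases hj with rfl | rfl
      · rw [Equiv.swap_apply_left, if_pos rfl]
      · rw [Equiv.swap_apply_right, if_neg (Ne.symm hab)]
    rw [if_pos hj, hs, Finset.erase_right_comm]
    rw [← Finset.mul_prod_erase (univ.erase (oth σ a b j)) (fun l => c l j - c (oth σ a b j) j)
      (Finset.mem_erase.2 ⟨(oth_ne hab j).symm, Finset.mem_univ _⟩), mul_comm]
    congr 1
    · ring
    · refine Finset.prod_congr rfl fun l _ => by ring
  · have hs : (σ * Equiv.swap a b) j = σ j := by
      rw [not_or] at hj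
      rw [Equiv.Perm.mul_apply, Equiv.swap_apply_of_ne_of_ne hj.1 hj.2]
    rw [if_neg hj, hs, mul_one]
    rw [← Finset.mul_prod_erase (univ.erase (σ j)) (fun l => c l j - c (σ j) j)
      (Finset.mem_erase.2 ⟨oth_ne hab j, Finset.mem_univ _⟩), mul_comm]
    congr 1
    refine Finset.prod_congr rfl fun l _ => by ring

theorem e_swap (hc : ∀ j, Function.Injective fun i => c i j)
    (hP : ∀ i, ∀ g ∈ Rk K 2, r (PP (c i) * g) = 0) (h2 : ∀ g ∈ Rk K 2, r g = 0)
    (σ : Equiv.Perm (Fin 4)) {a b : Fin 4} (hab : a ≠ b) :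
    r (LL c (σ * Equiv.swap a b : Equiv.Perm (Fin 4))) = -r (LL c σ) := by
  have hD : ∏ j, dlt c σ a b j ≠ 0 := Finset.prod_ne_zero_iff.2 fun j _ => dlt_ne hc hab j
  have hne : σ ≠ σ * Equiv.swap a b := by
    intro h
    have h3 := congrArg (fun τ : Equiv.Perm (Fin 4) => τ a) h
    simp only [Equiv.Perm.mul_apply, Equiv.swap_apply_left] at h3
    exact hab (σ.injective h3)
  have h3 := r_eq hc hP (Rk_mono (by norm_num : 2 ≤ 3) (ft_mem (c := c) (σ := σ) hab))
  rw [h2 _ (ft_mem hab), ← Finset.sum_subset (Finset.subset_univ {σ, σ * Equiv.swap a b}),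
    Finset.sum_pair hne] at h3
  · have e1 : (wt c σ)⁻¹ * ft c σ a b (zz c σ) = (∏ j, dlt c σ a b j)⁻¹ := by
      have h4 := ft_self (c := c) (σ := σ) hab
      have h5 := wt_ne hc σ
      rw [← h4] at h5 ⊢
      have h6 : ft c σ a b (zz c σ) ≠ 0 := left_ne_zero_of_mul h5
      field_simp
    have e2 : (wt c (σ * Equiv.swap a b : Equiv.Perm (Fin 4)))⁻¹ *
        ft c σ a b (zz c (σ * Equiv.swap a b : Equiv.Perm (Fin 4))) =
        (∏ j, dlt c σ a b j)⁻¹ := by
      have h4 := ft_swap (c := c) (σ := σ) hab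
      have h5 := wt_ne hc (σ * Equiv.swap a b : Equiv.Perm (Fin 4))
      rw [← h4] at h5 ⊢
      have h6 : ft c σ a b (zz c (σ * Equiv.swap a b : Equiv.Perm (Fin 4))) ≠ 0 :=
        left_ne_zero_of_mul h5
      field_simp
    rw [e1, e2, ← smul_add] at h3
    have h7 := (smul_eq_zero.1 h3.symm).resolve_left (inv_ne_zero hD)
    rw [add_comm] at h7
    exact eq_neg_of_add_eq_zero_left h7
  · intro τ _ hτ
    rw [Finset.mem_insert, Finset.mem_singleton, not_or] at hτ
    rw [ft_zero hab τ hτ.1 hτ.2, mul_zero, zero_smul]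

theorem e_sign (hc : ∀ j, Function.Injective fun i => c i j)
    (hP : ∀ i, ∀ g ∈ Rk K 2, r (PP (c i) * g) = 0) (h2 : ∀ g ∈ Rk K 2, r g = 0)
    (σ : Equiv.Perm (Fin 4)) :
    r (LL c σ) = ((Equiv.Perm.sign σ : ℤ) : K) • r (LL c (1 : Equiv.Perm (Fin 4))) := by
  induction σ using Equiv.Perm.swap_induction_on' with
  | one => simp
  | mul_swap f x y hxy ih =>
    rw [e_swap hc hP h2 f hxy, ih, Equiv.Perm.sign_mul, Equiv.Perm.sign_swap hxy]
    simp

theorem r_lam (hc : ∀ j, Function.Injective fun i => c i j)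
    (hP : ∀ i, ∀ g ∈ Rk K 2, r (PP (c i) * g) = 0) (h2 : ∀ g ∈ Rk K 2, r g = 0)
    {f : (Fin 4 → K) → K} (hf : f ∈ Rk K 3) :
    r f = lam c f • r (LL c (1 : Equiv.Perm (Fin 4))) := by
  rw [r_eq hc hP hf]
  unfold lam
  simp only [LinearMap.sum_apply, LinearMap.smul_apply, LinearMap.proj_apply, Finset.sum_smul]
  refine Finset.sum_congr rfl fun σ _ => ?_
  rw [e_sign hc hP h2 σ, smul_smul]
  congr 1
  simp only [smul_eq_mul, wt]
  ring

theorem r_zero (hc : ∀ j, Function.Injective fun i => c i j)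
    (hP : ∀ i, ∀ g ∈ Rk K 2, r (PP (c i) * g) = 0) (h2 : ∀ g ∈ Rk K 2, r g = 0)
    {c4 : Fin 4 → K} (h4 : ∀ g ∈ Rk K 2, r (PP c4 * g) = 0)
    (hg : ∃ g ∈ Rk K 2, lam c (PP c4 * g) ≠ 0) {f : (Fin 4 → K) → K} (hf : f ∈ Rk K 3) :
    r f = 0 := by
  obtain ⟨g, hg2, hg⟩ := hg
  have h5 : PP c4 * g ∈ Rk K 3 := mul_mem_Rk (k := 1) (l := 2) (PP_mem c4) hg2
  have h6 := r_lam hc hP h2 h5
  rw [h4 g hg2] at h6
  have h7 := (smul_eq_zero.1 h6.symm).resolve_left hg
  rw [r_lam hc hP h2 hf, h7, smul_zero]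

end

end Three

open Three

theorem res_three_of (φ : K →+* K) (c : Fin 5 → Fin 4 → K)
    (hc : ∀ j, Function.Injective fun i => c i j)
    (hg : ∃ g ∈ Rk K 2, lam (fun i : Fin 4 => c i.castSucc) (PP (c 4) * g) ≠ 0)
    (d : Fin 5 → K) (S : Finset K) (hS : ∀ W ∈ S, ∀ i, PP (c i) (pt φ W) = d i) :
    (Rk K 3).map (res φ S) ≤ (Rk K 2).map (res φ S) := by
  have hmul : ∀ (i : Fin 5) (g : (Fin 4 → K) → K), res φ S (PP (c i) * g) = d i • res φ S g := by
    intro i g
    funext W
    rw [res_apply, Pi.mul_apply, hS _ W.2 i, Pi.smul_apply, res_apply, smul_eq_mul]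
  let D2 : Submodule K (S → K) := (Rk K 2).map (res φ S)
  let r : ((Fin 4 → K) → K) →ₗ[K] ((S → K) ⧸ D2) := D2.mkQ ∘ₗ res φ S
  have h2 : ∀ g ∈ Rk K 2, r g = 0 := by
    intro g hg
    rw [LinearMap.comp_apply, Submodule.mkQ_apply, Submodule.Quotient.mk_eq_zero]
    exact Submodule.mem_map_of_mem hg
  have hP : ∀ (i : Fin 5), ∀ g ∈ Rk K 2, r (PP (c i) * g) = 0 := by
    intro i g hg
    have : r (PP (c i) * g) = d i • r g := by
      rw [LinearMap.comp_apply, hmul, map_smul, LinearMap.comp_apply]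
    rw [this, h2 g hg, smul_zero]
  rintro _ ⟨f, hf, rfl⟩
  have h0 : r f = 0 := r_zero (c := fun i : Fin 4 => c i.castSucc)
    (fun j => (hc j).comp (Fin.castSucc_injective 4)) (fun i => hP i.castSucc) h2 (hP 4) hg hf
  rw [LinearMap.comp_apply, Submodule.mkQ_apply, Submodule.Quotient.mk_eq_zero] at h0
  exact h0

theorem res_three (φ : K →+* K) (c : Fin 5 → Fin 4 → K)
    (hc : ∀ j, Function.Injective fun i => c i j)
    (hm : (c 4 0 - c 2 0) * (c 4 1 - c 3 1) ≠ (c 4 0 - c 3 0) * (c 4 1 - c 2 1))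
    (d : Fin 5 → K) (S : Finset K) (hS : ∀ W ∈ S, ∀ i, PP (c i) (pt φ W) = d i) :
    (Rk K 3).map (res φ S) ≤ (Rk K 2).map (res φ S) := by
  refine res_three_of φ c hc ⟨_, ?_, (lam_ne c hc hm).1⟩ d S hS
  have hlin : ∀ (k : Fin 4) (i : Fin 5) (e : Fin 4 → Bool),
      (fun x : Fin 4 → K => ∏ j, (if e j then x j + c i j else 1)) ∈ Rk K 1 := by
    intro k i e
    have h := prod_mem_Rk (K := K) (k := 1)
      (fun j => if e j then Polynomial.X + Polynomial.C (c i j) else 1) fun j => by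
        split_ifs
        · exact (Polynomial.natDegree_X_add_C _).le
        · simp
    convert h using 3 with x j
    split_ifs <;> simp
  refine mul_mem_Rk (k := 1) (l := 1) ?_ ?_
  · have h := hlin 0 0 ![true, true, false, true]
    convert h using 2 with x
    simp [Fin.prod_univ_four]
  · have h := hlin 0 1 ![true, true, true, false]
    convert h using 2 with x
    simp [Fin.prod_univ_four]

end Pool.Agent.H247R2.PNG
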