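import Pool.Agent.H247R2.PNG.Diag
import Pool.Agent.H247R2.PNG.Five
import Pool.Agent.H247R2.PNG.Gram
import Pool.Agent.H247R2.PNG.Three
import Pool.Agent.H247R2.PNG.One

/-!
# Assembly of the bound for systems of five norm equations
-/

namespace Pool.Agent.H247R2.PNG

open Finset Module

variable {K : Type} [Field K]

theorem finrank_map_add_le {V V' : Type*} [AddCommGroup V] [Module K V] [AddCommGroup V']
    [Module K V'] (T : V →ₗ[K] V') {Y R : Submodule K V} [FiniteDimensional K R] (h : Y ≤ R) :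
    finrank K (R.map T) + finrank K Y ≤ finrank K R + finrank K (Y.map T) := by
  have _ : FiniteDimensional K Y := Submodule.finiteDimensional_of_le h
  have h1 := LinearMap.finrank_range_add_finrank_ker (T.domRestrict R)
  have h2 := LinearMap.finrank_range_add_finrank_ker (T.domRestrict Y)
  rw [LinearMap.range_domRestrict] at h1 h2
  have h3 : finrank K (LinearMap.ker (T.domRestrict Y)) ≤
      finrank K (LinearMap.ker (T.domRestrict R)) := by
    refine LinearMap.finrank_le_finrank_of_injective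
      (f := (Submodule.inclusion h).restrict (p := LinearMap.ker (T.domRestrict Y))
        (q := LinearMap.ker (T.domRestrict R)) fun x hx => ?_) ?_
    · rw [LinearMap.mem_ker] at hx ⊢
      exact hx
    · intro x y hxy
      have := congrArg (fun z : LinearMap.ker (T.domRestrict R) => ((z : R) : V)) hxy
      exact Subtype.ext (Subtype.ext this)
  omega

theorem res_mul (φ : K →+* K) (S : Finset K) (f g : (Fin 4 → K) → K) :
    res φ S (f * g) = res φ S f * res φ S g := rfl

theorem mulP_le (c : Fin 4 → K) : mulP c ≤ Rk K 2 := by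
  rintro _ ⟨f, hf, rfl⟩
  have h := mul_mem_Rk (PP_mem c) hf
  rwa [LinearMap.mulLeft_apply]

theorem YY_le {n : ℕ} (c : Fin n → Fin 4 → K) : YY c ≤ Rk K 2 := by
  have h1 : Rk K 1 ≤ Rk K 2 := Rk_mono (by norm_num)
  exact sup_le h1 (iSup_le fun i => mulP_le (c i))

theorem map_YY_le (φ : K →+* K) {n : ℕ} (c : Fin n → Fin 4 → K) (d : Fin n → K) (S : Finset K)
    (hS : ∀ W ∈ S, ∀ i, PP (c i) (pt φ W) = d i) :
    (YY c).map (res φ S) ≤ (Rk K 1).map (res φ S) := by
  unfold YY
  rw [Submodule.map_sup, Submodule.map_iSup]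
  refine sup_le le_rfl (iSup_le fun i => ?_)
  unfold mulP
  rintro _ ⟨_, ⟨f, hf, rfl⟩, rfl⟩
  refine ⟨d i • f, Submodule.smul_mem _ _ hf, ?_⟩
  funext W
  rw [LinearMap.mulLeft_apply, res_apply, res_apply, Pi.mul_apply, Pi.smul_apply, smul_eq_mul,
    hS W W.2 i]

theorem map_succ_le (φ : K →+* K) (S : Finset K)
    (h3 : (Rk K 3).map (res φ S) ≤ (Rk K 2).map (res φ S)) (k : ℕ) :
    (Rk K k).map (res φ S) ≤ (Rk K 2).map (res φ S) := by
  induction k with
  | zero => exact Submodule.map_mono (Rk_mono (by norm_num))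
  | succ k ih =>
    rw [Submodule.map_le_iff_le_comap, Rk, Submodule.span_le]
    rintro _ ⟨e, rfl⟩
    rw [SetLike.mem_coe, Submodule.mem_comap]
    change res φ S (fun x : Fin 4 → K => ∏ j, x j ^ (e j : ℕ)) ∈ _
    have hle : ∀ j, (e j : ℕ) ≤ k + 1 := fun j => Nat.le_of_lt_succ (e j).2
    have hm1 : (fun x : Fin 4 → K => ∏ j, x j ^ ((e j : ℕ) - 1)) ∈ Rk K k :=
      mon_mem_Rk _ fun j => by have := hle j; omega
    have hm2 : (fun x : Fin 4 → K => ∏ j, x j ^ min (e j : ℕ) 1) ∈ Rk K 1 :=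
      mon_mem_Rk _ fun j => min_le_right _ _
    have hsplit : (fun x : Fin 4 → K => ∏ j, x j ^ (e j : ℕ)) =
        (fun x : Fin 4 → K => ∏ j, x j ^ ((e j : ℕ) - 1)) *
          (fun x : Fin 4 → K => ∏ j, x j ^ min (e j : ℕ) 1) := by
      funext x
      rw [Pi.mul_apply, ← Finset.prod_mul_distrib]
      refine Finset.prod_congr rfl fun j _ => ?_
      rw [← pow_add]
      congr 1
      omega
    rw [hsplit, res_mul]
    obtain ⟨g, hg, hgr⟩ := ih (Submodule.mem_map_of_mem hm1)
    rw [← hgr, ← res_mul]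
    have hm3 := mul_mem_Rk hg hm2
    exact h3 (Submodule.mem_map_of_mem hm3)

theorem map_eq_top (φ : K →+* K) (S : Finset K)
    (h : ∀ k, (Rk K k).map (res φ S) ≤ (Rk K 2).map (res φ S)) :
    (Rk K 2).map (res φ S) = ⊤ := by
  classical
  rw [eq_top_iff]
  intro F _
  let F' : K → K := fun W => if h : W ∈ S then F ⟨W, h⟩ else 0
  let p := Lagrange.interpolate S id F'
  have hp : ∀ W : S, p.eval (W : K) = F W := by
    intro W
    have := Lagrange.eval_interpolate_at_node (v := id) F' (Set.injOn_id (S : Set K)) W.2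
    rw [id] at this
    rw [this]
    simp [F']
  refine h p.natDegree ⟨fun x => ∏ j : Fin 4, ((if j = 0 then p else 1 : Polynomial K)).eval (x j),
    prod_mem_Rk _ fun j => ?_, ?_⟩
  · split_ifs
    · exact le_rfl
    · rw [Polynomial.natDegree_one]
      exact Nat.zero_le _
  · funext W
    rw [res_apply, ← hp W]
    simp [Fin.prod_univ_four, pt]

theorem card_le_of_hm (φ : K →+* K) (hφ : ∀ x, φ (φ (φ (φ x))) = x) (C : Fin 5 → K)
    (hC : Function.Injective C) (d : Fin 5 → K) (S : Finset K)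
    (hS : ∀ W ∈ S, ∀ i, ∏ j : Fin 4, φ^[j] (W + C i) = d i)
    (hm : (C 4 - C 2) * φ (C 4 - C 3) ≠ (C 4 - C 3) * φ (C 4 - C 2)) : S.card ≤ 18 := by
  have hc : ∀ j : Fin 4, Function.Injective fun i => pt φ (C i) j := fun j =>
    (φ.injective.iterate (j : ℕ)).comp hC
  have hS' : ∀ W ∈ S, ∀ i, PP (pt φ (C i)) (pt φ W) = d i := by
    intro W hW i
    rw [← hS W hW i, PP]
    refine Finset.prod_congr rfl fun j _ => ?_
    rw [iterate_map_add]
    rfl
  have hm' : (pt φ (C 4) 0 - pt φ (C 2) 0) * (pt φ (C 4) 1 - pt φ (C 3) 1) ≠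
      (pt φ (C 4) 0 - pt φ (C 3) 0) * (pt φ (C 4) 1 - pt φ (C 2) 1) := by
    have h1 : ∀ i, pt φ (C i) 0 = C i := fun i => rfl
    have h2 : ∀ i, pt φ (C i) 1 = φ (C i) := fun i => rfl
    rw [h1, h1, h1, h2, h2, h2, ← map_sub, ← map_sub]
    exact hm
  have h1 := res_one φ (fun i => pt φ (C i)) hc hm' d S hS'
  have h3 := res_three φ (fun i => pt φ (C i)) hc hm' d S hS'
  have hB := five_points (fun i : Fin 4 => pt φ (C i.castSucc)) fun j =>
    (hc j).comp (Fin.castSucc_injective 4)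
  have hD := six_points φ hφ C hC hm
  have hY := map_YY_le φ (fun i : Fin 5 => pt φ (C i)) d S hS'
  have hdim := finrank_map_add_le (res φ S) (YY_le fun i : Fin 5 => pt φ (C i))
  have hR2 := finrank_Rk_le (K := K) 2
  have hY2 := Submodule.finrank_mono hY
  have htop := map_eq_top φ S (map_succ_le φ S h3)
  rw [htop, finrank_top, Module.finrank_fintype_fun_eq_card, Fintype.card_coe] at hdim
  norm_num at hR2
  omega

theorem cardLe (K : Type) [Field K] : CardLe K := by
  intro φ hφ C hC d _ S hS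
  by_cases h : ∀ i, (C 4 - C i) * φ (C 4 - C 0) = (C 4 - C 0) * φ (C 4 - C i)
  · exact (card_le_diag φ hφ C hC d S hS h).trans (by norm_num)
  · obtain ⟨i, hi⟩ := not_forall.mp h
    -- a permutation of the indices with `2 ↦ i`, `3 ↦ 0`, `4 ↦ 4`
    obtain ⟨π, hπ, h2, h3, h4⟩ : ∃ π : Fin 5 → Fin 5, Function.Injective π ∧ π 2 = i ∧ π 3 = 0 ∧
        π 4 = 4 := by
      fin_cases i
      · exact absurd rfl hi
      · exact ⟨![2, 3, 1, 0, 4], by decide, rfl, rfl, rfl⟩
      · exact ⟨![3, 1, 2, 0, 4], by decide, rfl, rfl, rfl⟩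
      · exact ⟨![2, 1, 3, 0, 4], by decide, rfl, rfl, rfl⟩
      · exact absurd (by simp) hi
    refine card_le_of_hm φ hφ (C ∘ π) (hC.comp hπ) (d ∘ π) S (fun W hW i => hS W hW (π i)) ?_
    simp only [Function.comp_apply, h2, h3, h4]
    exact hi

end Pool.Agent.H247R2.PNG
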