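import Pool.Agent.H247R2.PNG.Defs

/-! Task G: the projective norm graph, from `CardLe` to the Turan number. -/

namespace Pool.Agent.H247R2.PNG

open Finset

namespace GraphG

/-- no six distinct vertices have nineteen distinct common neighbours -/
def NoK {V : Type*} (G : SimpleGraph V) : Prop :=
  ¬ ∃ (x : Fin 6 → V) (y : Fin 19 → V), Function.Injective x ∧ Function.Injective y ∧
    ∀ i j, G.Adj (x i) (y j)

theorem free_of_noK {V : Type*} {G : SimpleGraph V} (h : NoK G) (t : ℕ) (ht : 19 ≤ t) :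
    (completeBipartiteGraph (Fin 6) (Fin t)).Free G := by
  intro hc
  obtain ⟨f⟩ := hc
  apply h
  refine ⟨fun i => f (Sum.inl i), fun j => f (Sum.inr (Fin.castLE ht j)), ?_, ?_, ?_⟩
  · intro a b hab
    have := f.injective hab
    exact Sum.inl_injective this
  · intro a b hab
    have := Sum.inr_injective (f.injective hab)
    exact Fin.castLE_injective ht this
  · intro i j
    apply f.toHom.map_adj
    simp

theorem noK_map {V W : Type*} {G : SimpleGraph V} (h : NoK G) (e : V ↪ W) : NoK (G.map e) := by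
  rintro ⟨x, y, hx, hy, hadj⟩
  apply h
  have h1 : ∀ i, ∃ u, e u = x i := by
    intro i
    have := hadj i 0
    rw [SimpleGraph.map_adj] at this
    obtain ⟨u, v, _, hu, _⟩ := this
    exact ⟨u, hu⟩
  have h2 : ∀ j, ∃ u, e u = y j := by
    intro j
    have := hadj 0 j
    rw [SimpleGraph.map_adj] at this
    obtain ⟨u, v, _, _, hv⟩ := this
    exact ⟨v, hv⟩
  choose x' hx' using h1
  choose y' hy' using h2
  refine ⟨x', y', ?_, ?_, ?_⟩
  · intro a b hab
    apply hx
    rw [← hx', ← hx', hab]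
  · intro a b hab
    apply hy
    rw [← hy', ← hy', hab]
  · intro i j
    have := hadj i j
    rw [← hx', ← hy', SimpleGraph.map_adj_apply] at this
    exact this

theorem le_extremal {V : Type*} [Fintype V] (G : SimpleGraph V) (h : NoK G) (n : ℕ)
    (hn : Fintype.card V ≤ n) (t : ℕ) (ht : 19 ≤ t) (D : ℕ)
    (hD : ∀ v : V, ∃ s : Finset V, D ≤ s.card ∧ ∀ w ∈ s, G.Adj v w) :
    D * Fintype.card V ≤
      2 * SimpleGraph.extremalNumber n (completeBipartiteGraph (Fin 6) (Fin t)) := by
  classical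
  obtain ⟨e⟩ : Nonempty (V ↪ Fin n) := Function.Embedding.nonempty_of_card_le (by simpa using hn)
  have h1 := SimpleGraph.card_edgeFinset_le_extremalNumber
    (free_of_noK (noK_map h e) t ht)
  rw [Fintype.card_fin] at h1
  refine le_trans ?_ (Nat.mul_le_mul_left 2 h1)
  rw [← SimpleGraph.sum_degrees_eq_twice_card_edges]
  have h2 : ∀ v : V, D ≤ (G.map e).degree (e v) := by
    intro v
    obtain ⟨s, hs, hadj⟩ := hD v
    refine hs.trans ?_
    rw [← SimpleGraph.card_neighborFinset_eq_degree, ← Finset.card_map e]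
    apply Finset.card_le_card
    intro w hw
    rw [Finset.mem_map] at hw
    obtain ⟨u, hu, rfl⟩ := hw
    rw [SimpleGraph.mem_neighborFinset, SimpleGraph.map_adj_apply]
    exact hadj u hu
  calc D * Fintype.card V = ∑ v : V, D := by simp [mul_comm]
    _ ≤ ∑ v : V, (G.map e).degree (e v) := Finset.sum_le_sum fun v _ => h2 v
    _ = ∑ w ∈ Finset.univ.map e, (G.map e).degree w := by rw [Finset.sum_map]
    _ ≤ ∑ w, (G.map e).degree w := Finset.sum_le_sum_of_subset (Finset.subset_univ _)

section field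

variable {K : Type} [Field K] (φ : K →+* K)

/-- the norm -/
def Nm (x : K) : K := ∏ j : Fin 4, φ^[j] x

theorem Nm_mul (x y : K) : Nm φ (x * y) = Nm φ x * Nm φ y := by
  unfold Nm
  rw [← Finset.prod_mul_distrib]
  refine Finset.prod_congr rfl fun j _ => ?_
  rw [iterate_map_mul]

theorem Nm_ne {x : K} (hx : x ≠ 0) : Nm φ x ≠ 0 := by
  unfold Nm
  rw [Finset.prod_ne_zero_iff]
  intro j _
  have : Function.Injective (φ^[(j : ℕ)]) := φ.injective.iterate _
  intro h0
  apply hx
  apply this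
  rw [h0, iterate_map_zero]

theorem Nm_inv (x : K) : Nm φ x⁻¹ = (Nm φ x)⁻¹ := by
  by_cases hx : x = 0
  · subst hx
    simp [Nm]
  · apply eq_inv_of_mul_eq_one_left
    rw [← Nm_mul, inv_mul_cancel₀ hx]
    simp [Nm]

theorem Nm_fix (hφ : ∀ x, φ (φ (φ (φ x))) = x) (x : K) : φ (Nm φ x) = Nm φ x := by
  simp only [Nm, Fin.prod_univ_four, map_mul, Fin.val_zero, Fin.val_one, Fin.val_two,
    Function.iterate_zero, id_eq, Function.iterate_one]
  have h3 : ((3 : Fin 4) : ℕ) = 3 := rfl
  rw [h3]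
  show φ x * φ (φ x) * φ (φ (φ x)) * φ (φ (φ (φ x))) = x * φ x * φ (φ x) * φ (φ (φ x))
  rw [hφ]
  ring

/-- nonzero fixed elements -/
abbrev AA := {a : K // a ≠ 0 ∧ φ a = a}

/-- the projective norm graph -/
def PG : SimpleGraph (K × AA φ) where
  Adj u v := u ≠ v ∧ Nm φ (u.1 + v.1) = u.2.1 * v.2.1
  symm := ⟨fun u v h => ⟨h.1.symm, by rw [add_comm, h.2, mul_comm]⟩⟩
  loopless := ⟨fun u h => h.1 rfl⟩

theorem PG_noK (hφ : ∀ x, φ (φ (φ (φ x))) = x) (h : CardLe K) : NoK (PG φ) := by
  classical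
  rintro ⟨x, y, hx, hy, hadj⟩
  have hxa : ∀ i, (x i).2.1 ≠ 0 := fun i => (x i).2.2.1
  have hyb : ∀ j, (y j).2.1 ≠ 0 := fun j => (y j).2.2.1
  have hN : ∀ i j, Nm φ ((x i).1 + (y j).1) = (x i).2.1 * (y j).2.1 := fun i j => (hadj i j).2
  -- the first coordinates are distinct
  have hX : Function.Injective fun i => (x i).1 := by
    intro i k hik
    apply hx
    have h1 := hN i 0
    have h2 := hN k 0
    simp only at hik
    rw [hik, h2] at h1
    have h3 : (x k).2.1 = (x i).2.1 := mul_right_cancel₀ (hyb 0) h1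
    exact Prod.ext hik (Subtype.ext h3.symm)
  have hY : Function.Injective fun j => (y j).1 := by
    intro i k hik
    apply hy
    have h1 := hN 0 i
    have h2 := hN 0 k
    simp only at hik
    rw [hik, h2] at h1
    have h3 : (y k).2.1 = (y i).2.1 := mul_left_cancel₀ (hxa 0) h1
    exact Prod.ext hik (Subtype.ext h3.symm)
  have hs : ∀ i j, (x i).1 + (y j).1 ≠ 0 := by
    intro i j h0
    have := hN i j
    rw [h0] at this
    have h1 : Nm φ (0 : K) = 0 := by simp [Nm]
    rw [h1] at this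
    exact mul_ne_zero (hxa i) (hyb j) this.symm
  have hd : ∀ i : Fin 5, (x i.castSucc).1 - (x 5).1 ≠ 0 := by
    intro i h0
    have := hX (sub_eq_zero.1 h0)
    have h1 := i.castSucc_lt_last
    rw [this] at h1
    exact lt_irrefl _ h1
  set W : Fin 19 → K := fun j => ((y j).1 + (x 5).1)⁻¹ with hW
  set C : Fin 5 → K := fun i => ((x i.castSucc).1 - (x 5).1)⁻¹ with hC
  set d : Fin 5 → K := fun i => (x i.castSucc).2.1 / (x 5).2.1 *
    (Nm φ ((x i.castSucc).1 - (x 5).1))⁻¹ with hdd
  have hWinj : Function.Injective W := by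
    intro i j hij
    simp only [hW] at hij
    apply hY
    exact add_right_cancel (inv_injective hij)
  have hCinj : Function.Injective C := by
    intro i j hij
    simp only [hC] at hij
    have := sub_left_injective (inv_injective hij)
    exact Fin.castSucc_injective _ (hX this)
  have hkey : ∀ W' ∈ Finset.univ.image W, ∀ i, ∏ j : Fin 4, φ^[j] (W' + C i) = d i := by
    intro W' hW' i
    obtain ⟨j, _, rfl⟩ := Finset.mem_image.1 hW'
    show Nm φ (W j + C i) = d i
    have hyx : (y j).1 + (x 5).1 ≠ 0 := by rw [add_comm]; exact hs 5 j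
    have e1 : W j + C i = ((x i.castSucc).1 + (y j).1) *
        (((y j).1 + (x 5).1)⁻¹ * ((x i.castSucc).1 - (x 5).1)⁻¹) := by
      simp only [hW, hC]
      have := hd i
      field_simp
      ring
    rw [e1, Nm_mul, Nm_mul, Nm_inv, Nm_inv, hN, add_comm (y j).1, hN]
    simp only [hdd]
    have h1 := hxa 5
    have h2 := hyb j
    have h3 := Nm_ne φ (hd i)
    field_simp
  have := h φ hφ C hCinj d (fun i => by
    simp only [hdd]
    exact mul_ne_zero (div_ne_zero (hxa _) (hxa _)) (inv_ne_zero (Nm_ne φ (hd i)))) _ hkey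
  rw [Finset.card_image_of_injective _ hWinj] at this
  simp at this

theorem PG_deg (hφ : ∀ x, φ (φ (φ (φ x))) = x) [Fintype K] (v : K × AA φ) :
    ∃ s : Finset (K × AA φ), Fintype.card K - 2 ≤ s.card ∧ ∀ w ∈ s, (PG φ).Adj v w := by
  classical
  have hne : ∀ Y : K, Y ≠ -v.1 → Nm φ (v.1 + Y) / v.2.1 ≠ 0 := by
    intro Y hY
    apply div_ne_zero _ v.2.2.1
    apply Nm_ne
    intro h0
    exact hY (eq_neg_of_add_eq_zero_right h0)
  have hfix : ∀ Y : K, φ (Nm φ (v.1 + Y) / v.2.1) = Nm φ (v.1 + Y) / v.2.1 := by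
    intro Y
    rw [map_div₀, Nm_fix φ hφ, v.2.2.2]
  let g : K → K × AA φ := fun Y => if hY : Y ≠ -v.1 then
    (Y, ⟨Nm φ (v.1 + Y) / v.2.1, hne Y hY, hfix Y⟩) else (Y, v.2)
  have hg1 : ∀ Y, (g Y).1 = Y := by
    intro Y
    simp only [g]
    split_ifs <;> rfl
  have hginj : Function.Injective g := fun a b hab => by rw [← hg1 a, ← hg1 b, hab]
  refine ⟨(Finset.univ \ {-v.1, v.1}).image g, ?_, ?_⟩
  · rw [Finset.card_image_of_injective _ hginj]
    have h1 := Finset.le_card_sdiff ({-v.1, v.1} : Finset K) Finset.univ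
    have h2 : ({-v.1, v.1} : Finset K).card ≤ 2 := Finset.card_le_two
    rw [Finset.card_univ] at h1
    omega
  · intro w hw
    obtain ⟨Y, hY, rfl⟩ := Finset.mem_image.1 hw
    rw [Finset.mem_sdiff, Finset.mem_insert, Finset.mem_singleton, not_or] at hY
    obtain ⟨_, hY1, hY2⟩ := hY
    refine ⟨?_, ?_⟩
    · intro h0
      apply hY2
      rw [h0, hg1]
    · simp only [g]
      rw [dif_pos hY1]
      simp only
      rw [mul_div_cancel₀ _ v.2.2.1]

end field

theorem AA_card (p : ℕ) [Fact p.Prime] (K : Type) [Field K] [CharP K p] [Fintype K]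
    [Fintype (AA (frobenius K p))] :
    p - 1 ≤ Fintype.card (AA (frobenius K p)) ∧ Fintype.card (AA (frobenius K p)) ≤ p - 1 := by
  classical
  have hp : p.Prime := Fact.out
  let _ : Algebra (ZMod p) K := ZMod.algebra K p
  constructor
  · let f : (ZMod p)ˣ → AA (frobenius K p) := fun a => ⟨algebraMap (ZMod p) K a, by
      constructor
      · intro h0
        exact a.ne_zero ((algebraMap (ZMod p) K).injective (h0.trans (map_zero _).symm))
      · rw [frobenius_def, ← map_pow, ZMod.pow_card]⟩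
    have hf : Function.Injective f := by
      intro a b hab
      simp only [f, Subtype.mk.injEq] at hab
      exact Units.ext ((algebraMap (ZMod p) K).injective hab)
    have := Fintype.card_le_of_injective f hf
    rwa [ZMod.card_units p] at this
  · have h1 : Fintype.card (AA (frobenius K p)) ≤ (Polynomial.nthRoots (p - 1) (1 : K)).card := by
      have h2 : Fintype.card (AA (frobenius K p)) =
          (Finset.univ.image (Subtype.val : AA (frobenius K p) → K)).card := by
        rw [Finset.card_image_of_injective _ Subtype.val_injective, Finset.card_univ]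
      rw [h2]
      refine le_trans (Finset.card_le_card (t := (Polynomial.nthRoots (p - 1) (1 : K)).toFinset) ?_)
        (Multiset.toFinset_card_le _)
      intro a ha
      obtain ⟨a, _, rfl⟩ := Finset.mem_image.1 ha
      have h3 := a.2.2
      rw [frobenius_def] at h3
      rw [Multiset.mem_toFinset, Polynomial.mem_nthRoots (by have := hp.two_le; omega)]
      have h4 : (a : K) ^ (p - 1) * a = 1 * a := by
        rw [← pow_succ, Nat.sub_add_cancel hp.one_le, h3, one_mul]
      exact mul_right_cancel₀ a.2.1 h4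
    exact h1.trans (Polynomial.card_nthRoots _ _)

theorem prime_bound (h : ∀ (K : Type) [Field K], CardLe K) (p : ℕ) (hp : p.Prime) (n : ℕ)
    (hn : p ^ 5 ≤ n) (t : ℕ) (ht : 19 ≤ t) :
    (p ^ 4 - 2) * (p ^ 4 * (p - 1)) ≤
      2 * SimpleGraph.extremalNumber n (completeBipartiteGraph (Fin 6) (Fin t)) := by
  classical
  haveI : Fact p.Prime := ⟨hp⟩
  let K := GaloisField p 4
  haveI : Finite K := inferInstance
  letI : Fintype K := Fintype.ofFinite K
  have hcard : Fintype.card K = p ^ 4 := by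
    rw [← Nat.card_eq_fintype_card]
    exact GaloisField.card p 4 (by norm_num)
  have hφ : ∀ x : K, frobenius K p (frobenius K p (frobenius K p (frobenius K p x))) = x := by
    intro x
    have h1 : (frobenius K p)^[4] x = x := by
      rw [iterate_frobenius, ← hcard, FiniteField.pow_card]
    exact h1
  letI : Fintype (AA (frobenius K p)) := Fintype.ofFinite _
  obtain ⟨h1, h2⟩ := AA_card p K
  have hV : Fintype.card (K × AA (frobenius K p)) = p ^ 4 * Fintype.card (AA (frobenius K p)) := by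
    rw [Fintype.card_prod, hcard]
  have h3 := le_extremal (PG (frobenius K p)) (PG_noK _ hφ (h K)) n ?_ t ht (p ^ 4 - 2) ?_
  · refine le_trans ?_ h3
    rw [hV]
    gcongr
  · rw [hV]
    refine le_trans ?_ hn
    rw [pow_succ p 4]
    gcongr
    omega
  · intro v
    have := PG_deg (frobenius K p) hφ v
    rwa [hcard] at this

theorem one_le_extremal (n : ℕ) (hn : 2 ≤ n) (t : ℕ) (ht : 19 ≤ t) :
    1 ≤ SimpleGraph.extremalNumber n (completeBipartiteGraph (Fin 6) (Fin t)) := by
  have h1 := le_extremal (⊤ : SimpleGraph (Fin 2)) (by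
    rintro ⟨x, _, hx, _, _⟩
    have := Fintype.card_le_of_injective x hx
    simp at this) n (by simpa using hn) t ht 1 (fun v => ⟨{v + 1}, by simp, by
      intro w hw
      rw [Finset.mem_singleton] at hw
      subst hw
      rw [SimpleGraph.top_adj]
      fin_cases v <;> decide⟩)
  rw [Fintype.card_fin] at h1
  omega

end GraphG

open GraphG in
theorem turan_lower (h : ∀ (K : Type) [Field K], CardLe K) :
    ∃ c : ℝ, 0 < c ∧ ∀ t : ℕ, 19 ≤ t → ∀ n : ℕ, 2 ≤ n →
      c * (n : ℝ) ^ (9 / 5 : ℝ) ≤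
        (SimpleGraph.extremalNumber n (completeBipartiteGraph (Fin 6) (Fin t)) : ℝ) := by
  refine ⟨1 / 10 ^ 6, by norm_num, ?_⟩
  intro t ht n hn
  set ex := SimpleGraph.extremalNumber n (completeBipartiteGraph (Fin 6) (Fin t)) with hex
  rcases lt_or_ge n 32 with hlt | hge
  · have h1 : 1 ≤ ex := one_le_extremal n hn t ht
    have h2 : (n : ℝ) ^ (9 / 5 : ℝ) ≤ (32 : ℝ) ^ (9 / 5 : ℝ) :=
      Real.rpow_le_rpow (by positivity) (by exact_mod_cast hlt.le) (by norm_num)
    have h3 : (32 : ℝ) ^ (9 / 5 : ℝ) = 512 := by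
      have : (32 : ℝ) = 2 ^ (5 : ℝ) := by norm_num
      rw [this, ← Real.rpow_mul (by norm_num)]
      norm_num
    have h4 : (1 : ℝ) ≤ ex := by exact_mod_cast h1
    rw [h3] at h2
    linarith
  · -- the largest m with m ^ 5 ≤ n
    obtain ⟨m, hm1, hm2⟩ : ∃ m : ℕ, m ^ 5 ≤ n ∧ n < (m + 1) ^ 5 := by
      refine ⟨Nat.findGreatest (fun m => m ^ 5 ≤ n) n, ?_, ?_⟩
      · exact Nat.findGreatest_spec (P := fun m => m ^ 5 ≤ n) (Nat.zero_le n) (by simp)
      · by_contra hcon
        rw [not_lt] at hcon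
        have h1 : Nat.findGreatest (fun m => m ^ 5 ≤ n) n + 1 ≤ n := by
          refine le_trans ?_ hcon
          exact Nat.le_self_pow (by norm_num) _
        exact Nat.findGreatest_is_greatest (Nat.lt_succ_self _) h1 hcon
    have hm : 2 ≤ m := by
      by_contra hcon
      have : m + 1 ≤ 2 := by omega
      have h1 : (m + 1) ^ 5 ≤ 2 ^ 5 := Nat.pow_le_pow_left this 5
      omega
    obtain ⟨p, hp, hp1, hp2⟩ := Nat.exists_prime_lt_and_le_two_mul (m / 2) (by omega)
    have hpm : p ≤ m := by omega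
    have hmp : m + 1 ≤ 2 * p := by omega
    have h1 := prime_bound h p hp n ((Nat.pow_le_pow_left hpm 5).trans hm1) t ht
    have h2 : n ≤ (2 * p) ^ 5 := hm2.le.trans (Nat.pow_le_pow_left hmp 5)
    have hp0 : 2 ≤ p := hp.two_le
    have h3 : (p : ℝ) ^ 9 ≤ 8 * (ex : ℝ) := by
      have h4 : p ^ 9 ≤ 8 * ex := by
        have h5 : 8 * 2 ≤ p ^ 4 := by
          calc 8 * 2 = 2 ^ 4 := by norm_num
            _ ≤ p ^ 4 := Nat.pow_le_pow_left hp0 4
        have h6 : p ^ 4 ≤ 2 * (p ^ 4 - 2) := by omega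
        have h7 : p ≤ 2 * (p - 1) := by omega
        calc p ^ 9 = p ^ 4 * (p ^ 4 * p) := by ring
          _ ≤ (2 * (p ^ 4 - 2)) * (p ^ 4 * (2 * (p - 1))) := by gcongr
          _ = 4 * ((p ^ 4 - 2) * (p ^ 4 * (p - 1))) := by ring
          _ ≤ 4 * (2 * ex) := by gcongr
          _ = 8 * ex := by ring
      exact_mod_cast h4
    have h4 : (n : ℝ) ^ (9 / 5 : ℝ) ≤ 512 * (p : ℝ) ^ 9 := by
      have h5 : (n : ℝ) ≤ (2 * p : ℝ) ^ 5 := by exact_mod_cast h2
      calc (n : ℝ) ^ (9 / 5 : ℝ) ≤ ((2 * p : ℝ) ^ 5) ^ (9 / 5 : ℝ) :=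
            Real.rpow_le_rpow (by positivity) h5 (by norm_num)
        _ = (2 * p : ℝ) ^ 9 := by
            rw [← Real.rpow_natCast, ← Real.rpow_mul (by positivity), ← Real.rpow_natCast]
            norm_num
        _ = 512 * (p : ℝ) ^ 9 := by ring
    have h5 : (0 : ℝ) ≤ ex := by positivity
    linarith

end Pool.Agent.H247R2.PNG
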